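import Mathlib
import Pool.Agent.Shared.Subspace.Roth
import Pool.Agent.Shared.Subspace.Grid

/-!
The auxiliary polynomial in two variables with large weighted index at the three points
`(0, 0)`, `(-1, -1)` and `(∞, ∞)`, and its homogeneous value at a pair of integer points.
-/

set_option autoImplicit false

namespace Pool.Agent.Lib.MP_4ffbf9_nt.H

open MvPolynomial Finset Pool.Agent.Subspace

/-- The exponent vector `(a, j)`. -/
noncomputable def ex (a j : ℕ) : Fin 2 →₀ ℕ := Finsupp.equivFunOnFinite.symm ![a, j]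

@[simp] theorem ex_zero (a j : ℕ) : ex a j 0 = a := rfl

@[simp] theorem ex_one (a j : ℕ) : ex a j 1 = j := rfl

theorem ex_self (ν : Fin 2 →₀ ℕ) : ex (ν 0) (ν 1) = ν := by
  ext i
  fin_cases i <;> rfl

theorem tri_sum (p κ m : ℕ) :
    2 * p * ∑ a ∈ range (m + 1), (κ - p * a) + (κ - p * m) ^ 2 ≤ 2 * p * κ + κ ^ 2 := by
  induction m with
  | zero => simp
  | succ m ih =>
    rw [sum_range_succ, mul_add]
    have h : 2 * p * (κ - p * (m + 1)) + (κ - p * (m + 1)) ^ 2 ≤ (κ - p * m) ^ 2 := by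
      rcases le_total κ (p * (m + 1)) with h | h
      · rw [Nat.sub_eq_zero_of_le h]; simp
      · have e : κ - p * m = κ - p * (m + 1) + p := by
          rw [mul_add, mul_one] at h ⊢; omega
        rw [e]; nlinarith
    omega

theorem tri_card {p : ℕ} (hp : 0 < p) (κ k D : ℕ) :
    (Fintype.card {t : Fin (k + 1) × Fin (D + 1) // p * (t.1 : ℕ) + (t.2 : ℕ) < κ} : ℝ) ≤
      (κ : ℝ) ^ 2 / (2 * p) + κ := by
  classical
  have h1 : Fintype.card {t : Fin (k + 1) × Fin (D + 1) // p * (t.1 : ℕ) + (t.2 : ℕ) < κ} ≤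
      ∑ a ∈ range (k + 1), (κ - p * a) := by
    have h2 : ∑ a ∈ range (k + 1), (κ - p * a) =
        ((range (k + 1)).sigma fun a => range (κ - p * a)).card := by
      rw [card_sigma]; simp
    rw [h2, ← Finset.card_univ]
    refine card_le_card_of_injOn (fun t => ⟨(t.1.1 : ℕ), (t.1.2 : ℕ)⟩) (fun t _ => ?_) ?_
    · have h3 := t.2
      have h4 := t.1.1.2
      simp only [coe_sigma, coe_range, Set.mem_sigma_iff, Set.mem_Iio]
      omega
    · intro t _ t' _ h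
      simp only [Sigma.mk.injEq, heq_eq_eq] at h
      exact Subtype.ext (Prod.ext (Fin.ext h.1) (Fin.ext h.2))
  have h2 := tri_sum p κ k
  have h3 : 2 * p * Fintype.card {t : Fin (k + 1) × Fin (D + 1) // p * (t.1 : ℕ) + (t.2 : ℕ) < κ} ≤
      2 * p * κ + κ ^ 2 := le_trans (Nat.mul_le_mul_left _ h1) (le_trans (Nat.le_add_right _ _) h2)
  have hp' : (0 : ℝ) < p := by exact_mod_cast hp
  have h4 : (2 * p * Fintype.card {t : Fin (k + 1) × Fin (D + 1) // p * (t.1 : ℕ) + (t.2 : ℕ) < κ} :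
      ℝ) ≤ 2 * p * κ + κ ^ 2 := by exact_mod_cast h3
  rw [div_add' _ _ _ (by positivity), le_div_iff₀ (by positivity)]
  linarith

attribute [local instance] Matrix.seminormedAddCommGroup in
theorem siegel {α β : Type*} [Fintype α] [Fintype β] (A : Matrix α β ℤ) {e : ℕ}
    (h : ((e : ℝ) + 1) * Fintype.card α ≤ e * Fintype.card β) (hβ : 0 < Fintype.card β) {B : ℝ}
    (hB : 1 ≤ B) (hA : ∀ i j, |(A i j : ℝ)| ≤ B) :
    ∃ t : β → ℤ, t ≠ 0 ∧ A.mulVec t = 0 ∧ ∀ j, |(t j : ℝ)| ≤ (Fintype.card β * B) ^ e := by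
  have hβ1 : (1 : ℝ) ≤ Fintype.card β := by exact_mod_cast hβ
  have hβB : (1 : ℝ) ≤ Fintype.card β * B := one_le_mul_of_one_le_of_one_le hβ1 hB
  rcases Nat.eq_zero_or_pos (Fintype.card α) with h0 | h0
  · have : IsEmpty α := Fintype.card_eq_zero_iff.mp h0
    have : Nonempty β := Fintype.card_pos_iff.mp hβ
    refine ⟨1, one_ne_zero, Subsingleton.elim _ _, fun j => ?_⟩
    simpa using one_le_pow₀ hβB
  have h4 : (0 : ℝ) < Fintype.card α := by exact_mod_cast h0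
  have he : (0 : ℝ) ≤ e := Nat.cast_nonneg e
  have hlt : (Fintype.card α : ℝ) < Fintype.card β := by
    by_contra hc
    push Not at hc
    nlinarith
  obtain ⟨t, ht0, ht, hn⟩ := Int.Matrix.exists_ne_zero_int_vec_norm_le A (by exact_mod_cast hlt) h0
  refine ⟨t, ht0, ht, fun j => ?_⟩
  have h1 : |(t j : ℝ)| ≤ ‖t‖ := by
    have := norm_le_pi_norm t j
    rwa [Int.norm_eq_abs] at this
  have h2 : ‖A‖ ≤ B := by
    rw [Matrix.norm_le_iff (by linarith)]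
    intro i j
    rw [Int.norm_eq_abs]
    exact hA i j
  have h5 : (Fintype.card α : ℝ) / (Fintype.card β - Fintype.card α) ≤ e := by
    rw [div_le_iff₀ (by linarith)]
    linarith
  have h6 : (1 : ℝ) ≤ Fintype.card β * max 1 ‖A‖ :=
    one_le_mul_of_one_le_of_one_le hβ1 (le_max_left _ _)
  refine h1.trans (hn.trans ((Real.rpow_le_rpow_of_exponent_le h6 h5).trans ?_))
  rw [Real.rpow_natCast]
  exact pow_le_pow_left₀ (by linarith) (mul_le_mul_of_nonneg_left (max_le hB h2) (by linarith)) _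

theorem l1_shift_monomial (a j : ℕ) :
    l1 (shift (fun _ => (-1 : ℤ)) (monomial (ex a j) (1 : ℤ))) ≤ 2 ^ (a + j) := by
  have h : ∀ i : Fin 2, l1 (C (-1 : ℤ) + X i : MvPolynomial (Fin 2) ℤ) ≤ 2 := fun i =>
    (l1_add_le _ _).trans (by rw [l1_C, l1_X]; norm_num)
  rw [shift, aeval_monomial, Finsupp.prod_fintype _ _ fun _ => pow_zero _, Fin.prod_univ_two,
    map_one, one_mul, pow_add]
  refine (l1_mul_le _ _).trans (mul_le_mul ?_ ?_ (l1_nonneg _) (by positivity))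
  · exact (l1_pow_le _ _).trans (pow_le_pow_left₀ (l1_nonneg _) (h 0) _)
  · exact (l1_pow_le _ _).trans (pow_le_pow_left₀ (l1_nonneg _) (h 1) _)

/-- The auxiliary polynomial. -/
theorem aux_poly (e k D κ : ℕ) {p q r : ℕ} (hp : 0 < p) (hq : 0 < q) (hr : 0 < r)
    (hcount : ((e : ℝ) + 1) * ((κ : ℝ) ^ 2 * (1 / p + 1 / q + 1 / r) / 2 + 3 * κ) ≤
      e * ((k : ℝ) * D)) :
    ∃ P : MvPolynomial (Fin 2) ℤ, P ≠ 0 ∧ DegLe 0 k P ∧ DegLe 1 D P ∧
      (∀ ν ∈ P.support, κ ≤ p * ν 0 + ν 1) ∧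
      (∀ ν ∈ (shift (fun _ => (-1 : ℤ)) P).support, κ ≤ q * ν 0 + ν 1) ∧
      (∀ ν ∈ P.support, κ ≤ r * (k - ν 0) + (D - ν 1)) ∧
      l1 P ≤ 2 ^ ((2 * e + 1) * (k + D)) := by
  classical
  let β := Fin (k + 1) × Fin (D + 1)
  let T : ℕ → Type := fun p => {t : β // p * (t.1 : ℕ) + (t.2 : ℕ) < κ}
  let mo : β → MvPolynomial (Fin 2) ℤ := fun b => monomial (ex b.1 b.2) 1
  let A : Matrix (T p ⊕ T q ⊕ T r) β ℤ := fun i b =>
    Sum.elim (fun t : T p => coeff (ex t.1.1 t.1.2) (mo b))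
      (Sum.elim (fun t : T q => coeff (ex t.1.1 t.1.2) (shift (fun _ => (-1 : ℤ)) (mo b)))
        (fun t : T r => coeff (ex (k - t.1.1) (D - t.1.2)) (mo b))) i
  have hβ : Fintype.card β = (k + 1) * (D + 1) := by simp [β]
  have hB : (1 : ℝ) ≤ 2 ^ (k + D) := one_le_pow₀ (by norm_num)
  have hmo : ∀ b ν, |((coeff ν (mo b) : ℤ) : ℝ)| ≤ 2 ^ (k + D) := by
    intro b ν
    refine le_trans ?_ hB
    have := norm_coeff_le_l1 (mo b) ν
    rwa [l1_monomial, norm_one, Int.norm_eq_abs] at this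
  obtain ⟨t, ht0, ht, htb⟩ := siegel A (e := e)
    (by
      rw [Fintype.card_sum, Fintype.card_sum, hβ]
      push_cast
      have h1 := tri_card hp κ k D
      have h2 := tri_card hq κ k D
      have h3 := tri_card hr κ k D
      have h4 : (κ : ℝ) ^ 2 * (1 / p + 1 / q + 1 / r) / 2 + 3 * κ =
          (κ : ℝ) ^ 2 / (2 * p) + κ + ((κ : ℝ) ^ 2 / (2 * q) + κ + ((κ : ℝ) ^ 2 / (2 * r) + κ)) := by
        ring
      have h5 : (e : ℝ) * ((k : ℝ) * D) ≤ e * ((k + 1) * (D + 1)) := by gcongr <;> linarith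
      refine le_trans ?_ (hcount.trans h5)
      rw [h4]
      exact mul_le_mul_of_nonneg_left (add_le_add h1 (add_le_add h2 h3)) (by positivity))
    (by rw [hβ]; positivity) hB
    (by
      rintro (i | i | i) b
      · exact hmo _ _
      · have := norm_coeff_le_l1 (shift (fun _ => (-1 : ℤ)) (mo b)) (ex i.1.1 i.1.2)
        rw [Int.norm_eq_abs] at this
        refine this.trans ((l1_shift_monomial _ _).trans (pow_le_pow_right₀ (by norm_num) ?_))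
        have h1 := b.1.2
        have h2 := b.2.2
        omega
      · exact hmo _ _)
  set P : MvPolynomial (Fin 2) ℤ := ∑ b, t b • mo b with hP
  have hc : ∀ b : β, coeff (ex b.1 b.2) P = t b := by
    intro b
    rw [hP, coeff_sum, sum_eq_single b]
    · rw [coeff_smul, coeff_monomial, if_pos rfl, smul_eq_mul, mul_one]
    · intro b' _ hb
      rw [coeff_smul, coeff_monomial, if_neg, smul_zero]
      intro h
      exact hb (Prod.ext (Fin.ext (by simpa using DFunLike.congr_fun h 0))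
        (Fin.ext (by simpa using DFunLike.congr_fun h 1)))
    · simp
  have hs : ∀ ν ∈ P.support, ν 0 ≤ k ∧ ν 1 ≤ D := by
    intro ν hν
    rw [MvPolynomial.mem_support_iff, hP, coeff_sum] at hν
    obtain ⟨b, -, hb⟩ := exists_ne_zero_of_sum_ne_zero hν
    rw [coeff_smul, coeff_monomial] at hb
    split_ifs at hb with h
    · rw [← h]
      exact ⟨Nat.lt_succ_iff.mp b.1.2, Nat.lt_succ_iff.mp b.2.2⟩
    · simp at hb
  have hk : DegLe 0 k P := fun ν hν => (hs ν hν).1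
  have hD : DegLe 1 D P := fun ν hν => (hs ν hν).2
  refine ⟨P, fun h => ht0 (funext fun b => by rw [← hc b, h]; rfl), hk, hD, fun ν hν => ?_,
    fun ν hν => ?_, fun ν hν => ?_, ?_⟩
  · by_contra hlt
    push Not at hlt
    have h1 := congrFun ht (Sum.inl ⟨(⟨ν 0, Nat.lt_succ_iff.mpr (hk ν hν)⟩,
      ⟨ν 1, Nat.lt_succ_iff.mpr (hD ν hν)⟩), hlt⟩)
    refine MvPolynomial.mem_support_iff.mp hν ?_
    rw [hP, coeff_sum]
    simp only [coeff_smul]
    simpa [A, Matrix.mulVec, dotProduct, ex_self, mul_comm] using h1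
  · by_contra hlt
    push Not at hlt
    have h1 := congrFun ht (Sum.inr (Sum.inl ⟨(⟨ν 0, Nat.lt_succ_iff.mpr (hk.shift _ ν hν)⟩,
      ⟨ν 1, Nat.lt_succ_iff.mpr (hD.shift _ ν hν)⟩), hlt⟩))
    refine MvPolynomial.mem_support_iff.mp hν ?_
    rw [hP, map_sum, coeff_sum]
    simp only [map_smul, coeff_smul]
    simpa [A, Matrix.mulVec, dotProduct, ex_self, mul_comm] using h1
  · by_contra hlt
    push Not at hlt
    have h1 := congrFun ht (Sum.inr (Sum.inr ⟨(⟨k - ν 0, by omega⟩, ⟨D - ν 1, by omega⟩), hlt⟩))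
    refine MvPolynomial.mem_support_iff.mp hν ?_
    rw [hP, coeff_sum]
    simp only [coeff_smul]
    simpa [A, Matrix.mulVec, dotProduct, ex_self, mul_comm, Nat.sub_sub_self (hk ν hν),
      Nat.sub_sub_self (hD ν hν)] using h1
  · have h1 : (Fintype.card β : ℝ) ≤ 2 ^ (k + D) := by
      rw [hβ, pow_add]
      exact_mod_cast Nat.mul_le_mul (Nat.lt_two_pow_self (n := k)) (Nat.lt_two_pow_self (n := D))
    calc l1 P ≤ ∑ b, l1 (t b • mo b) := l1_sum_le _ _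
      _ ≤ ∑ _b : β, ((2 : ℝ) ^ (k + D) * 2 ^ (k + D)) ^ e := by
          refine sum_le_sum fun b _ => ?_
          rw [smul_monomial, l1_monomial, smul_eq_mul, mul_one, Int.norm_eq_abs]
          exact (htb b).trans (by gcongr)
      _ ≤ 2 ^ (k + D) * ((2 : ℝ) ^ (k + D) * 2 ^ (k + D)) ^ e := by
          rw [sum_const, card_univ, nsmul_eq_mul]
          gcongr
      _ = _ := by ring

/-- The bihomogeneous value of `Q` in degrees `(k, D)`. -/
noncomputable def hv (k D : ℕ) (s₁ s₃ t₁ t₃ : ℤ) (Q : MvPolynomial (Fin 2) ℤ) : ℤ :=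
  ∑ ν ∈ Q.support, coeff ν Q * (s₁ ^ ν 0 * s₃ ^ (k - ν 0) * (t₁ ^ ν 1 * t₃ ^ (D - ν 1)))

theorem hv_eq {k D : ℕ} {s₃ t₃ : ℤ} (hs : s₃ ≠ 0) (ht : t₃ ≠ 0) (s₁ t₁ : ℤ)
    {Q : MvPolynomial (Fin 2) ℤ} (hk : DegLe 0 k Q) (hD : DegLe 1 D Q) :
    (hv k D s₁ s₃ t₁ t₃ Q : ℚ) =
      (s₃ : ℚ) ^ k * (t₃ : ℚ) ^ D * aeval ![(s₁ : ℚ) / s₃, (t₁ : ℚ) / t₃] Q := by
  have hs' : (s₃ : ℚ) ≠ 0 := by exact_mod_cast hs
  have ht' : (t₃ : ℚ) ≠ 0 := by exact_mod_cast ht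
  rw [hv, aeval_def, eval₂_eq', mul_sum]
  push_cast
  refine sum_congr rfl fun ν hν => ?_
  obtain ⟨a, ha⟩ := Nat.exists_eq_add_of_le (hk ν hν)
  obtain ⟨j, hj⟩ := Nat.exists_eq_add_of_le (hD ν hν)
  rw [Fin.prod_univ_two, ha, hj, Nat.add_sub_cancel_left, Nat.add_sub_cancel_left]
  simp only [Matrix.cons_val_zero, Matrix.cons_val_one, eq_intCast, div_pow, pow_add]
  field_simp

theorem aeval_shift' (y : Fin 2 → ℚ) (z : Fin 2 → ℤ) (P : MvPolynomial (Fin 2) ℤ) :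
    aeval y (shift z P) = aeval (fun i => (z i : ℚ) + y i) P := by
  induction P using MvPolynomial.induction_on with
  | C a => simp
  | add P Q hP hQ => rw [map_add, map_add, map_add, hP, hQ]
  | mul_X P i hP => rw [map_mul, map_mul, map_mul, hP]; simp

theorem hv_shift {k D : ℕ} {s₃ t₃ : ℤ} (hs : s₃ ≠ 0) (ht : t₃ ≠ 0) (s₁ t₁ : ℤ)
    {Q : MvPolynomial (Fin 2) ℤ} (hk : DegLe 0 k Q) (hD : DegLe 1 D Q) :
    hv k D s₁ s₃ t₁ t₃ Q = hv k D (s₁ + s₃) s₃ (t₁ + t₃) t₃ (shift (fun _ => (-1 : ℤ)) Q) := by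
  have hs' : (s₃ : ℚ) ≠ 0 := by exact_mod_cast hs
  have ht' : (t₃ : ℚ) ≠ 0 := by exact_mod_cast ht
  have : (hv k D s₁ s₃ t₁ t₃ Q : ℚ) =
      hv k D (s₁ + s₃) s₃ (t₁ + t₃) t₃ (shift (fun _ => (-1 : ℤ)) Q) := by
    rw [hv_eq hs ht _ _ hk hD, hv_eq hs ht _ _ (hk.shift _) (hD.shift _), aeval_shift']
    congr 2
    congr 1
    funext i
    fin_cases i
    · simp; field_simp; ring
    · simp; field_simp; ring
  exact_mod_cast this

theorem dvd_hv {k D m p : ℕ} {x s₁ t₁ : ℤ} (s₃ t₃ : ℤ) (hs : x ^ p ∣ s₁) (ht : x ∣ t₁)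
    {Q : MvPolynomial (Fin 2) ℤ} (h : ∀ ν ∈ Q.support, m ≤ p * ν 0 + ν 1) :
    x ^ m ∣ hv k D s₁ s₃ t₁ t₃ Q := by
  refine dvd_sum fun ν hν => Dvd.dvd.mul_left ?_ _
  refine (pow_dvd_pow x (h ν hν)).trans ?_
  rw [pow_add, pow_mul]
  exact mul_dvd_mul ((pow_dvd_pow_of_dvd hs _).mul_right _) ((pow_dvd_pow_of_dvd ht _).mul_right _)

theorem dvd_hv' {k D m p : ℕ} {x s₃ t₃ : ℤ} (s₁ t₁ : ℤ) (hs : x ^ p ∣ s₃) (ht : x ∣ t₃)
    {Q : MvPolynomial (Fin 2) ℤ} (h : ∀ ν ∈ Q.support, m ≤ p * (k - ν 0) + (D - ν 1)) :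
    x ^ m ∣ hv k D s₁ s₃ t₁ t₃ Q := by
  refine dvd_sum fun ν hν => Dvd.dvd.mul_left ?_ _
  refine (pow_dvd_pow x (h ν hν)).trans ?_
  rw [pow_add, pow_mul]
  exact mul_dvd_mul ((pow_dvd_pow_of_dvd hs _).mul_left _) ((pow_dvd_pow_of_dvd ht _).mul_left _)

theorem abs_hv_le {k D m p : ℕ} {s₁ s₃ t₁ t₃ : ℤ} {S R u : ℝ} (hu0 : 0 ≤ u) (hu : u ≤ 1)
    (h₁ : |(s₁ : ℝ)| ≤ S * u ^ p) (h₃ : |(s₃ : ℝ)| ≤ S) (g₁ : |(t₁ : ℝ)| ≤ R * u)
    (g₃ : |(t₃ : ℝ)| ≤ R) {Q : MvPolynomial (Fin 2) ℤ} (hk : DegLe 0 k Q) (hD : DegLe 1 D Q)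
    (h : ∀ ν ∈ Q.support, m ≤ p * ν 0 + ν 1) :
    |(hv k D s₁ s₃ t₁ t₃ Q : ℝ)| ≤ l1 Q * (S ^ k * R ^ D * u ^ m) := by
  have hS : 0 ≤ S := (abs_nonneg _).trans h₃
  have hR : 0 ≤ R := (abs_nonneg _).trans g₃
  rw [hv, l1, sum_mul]
  push_cast
  refine (abs_sum_le_sum_abs _ _).trans (sum_le_sum fun ν hν => ?_)
  rw [abs_mul, Int.norm_eq_abs]
  refine mul_le_mul_of_nonneg_left ?_ (abs_nonneg _)
  obtain ⟨a, ha⟩ := Nat.exists_eq_add_of_le (hk ν hν)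
  obtain ⟨j, hj⟩ := Nat.exists_eq_add_of_le (hD ν hν)
  rw [ha, hj, Nat.add_sub_cancel_left, Nat.add_sub_cancel_left, abs_mul, abs_mul, abs_mul, abs_pow,
    abs_pow, abs_pow, abs_pow]
  calc _ ≤ (S * u ^ p) ^ ν 0 * S ^ a * ((R * u) ^ ν 1 * R ^ j) := by gcongr
    _ = S ^ (ν 0 + a) * R ^ (ν 1 + j) * u ^ (p * ν 0 + ν 1) := by ring
    _ ≤ _ := mul_le_mul_of_nonneg_left (pow_le_pow_of_le_one hu0 hu (h ν hν)) (by positivity)

theorem mul_le_of_dvd {a b c N : ℕ} (hN : 0 < N) (ha : a ∣ N) (hb : b ∣ N) (hc : c ∣ N) :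
    a * b * c ≤ N * (Nat.gcd a b * (Nat.gcd a c * Nat.gcd b c)) := by
  have h1 : Nat.lcm (Nat.lcm a b) c ≤ N :=
    Nat.le_of_dvd hN (Nat.lcm_dvd (Nat.lcm_dvd ha hb) hc)
  have hc0 : 0 < c := Nat.pos_of_dvd_of_pos hc hN
  have h2 : Nat.gcd (Nat.lcm a b) c ≤ Nat.gcd a c * Nat.gcd b c := by
    refine Nat.le_of_dvd (Nat.mul_pos (Nat.gcd_pos_of_pos_right _ hc0)
      (Nat.gcd_pos_of_pos_right _ hc0)) ?_
    refine (Nat.gcd_dvd_gcd_of_dvd_left c (Nat.lcm_dvd_mul a b)).trans ?_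
    rw [Nat.gcd_comm, Nat.gcd_comm a, Nat.gcd_comm b]
    exact gcd_mul_dvd_mul_gcd c a b
  calc a * b * c = Nat.gcd a b * (Nat.lcm a b * c) := by rw [← mul_assoc, Nat.gcd_mul_lcm]
    _ = Nat.gcd a b * (Nat.gcd (Nat.lcm a b) c * Nat.lcm (Nat.lcm a b) c) := by
        rw [Nat.gcd_mul_lcm]
    _ ≤ Nat.gcd a b * (Nat.gcd a c * Nat.gcd b c * N) := by gcongr
    _ = _ := by ring

end Pool.Agent.Lib.MP_4ffbf9_nt.H
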