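import Mathlib
import Pool.Agent.Lib.MP_4ffbf9_nt.H.Poly

/-!
The two point step: Siegel, Roth and the product formula.
-/

set_option autoImplicit false

namespace Pool.Agent.Lib.MP_4ffbf9_nt.H

open MvPolynomial Finset Pool.Agent.Subspace

theorem gcd_pow_le {x y G a b κ : ℕ} (hx : 0 < x) (h : Nat.gcd x y ≤ G) (ha : a ≤ κ) (hb : b ≤ κ) :
    Nat.gcd (x ^ a) (y ^ b) ≤ G ^ κ := by
  refine le_trans (Nat.le_of_dvd (Nat.gcd_pos_of_pos_left (y ^ κ) (pow_pos hx κ)) ?_) ?_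
  · exact Nat.dvd_gcd ((Nat.gcd_dvd_left _ _).trans (pow_dvd_pow _ ha))
      ((Nat.gcd_dvd_right _ _).trans (pow_dvd_pow _ hb))
  · rw [Nat.pow_gcd_pow]
    exact Nat.pow_le_pow_left h _

theorem step {θ₀ : ℝ} (h0 : 0 < θ₀) : ∃ σ : ℝ, 0 < σ ∧
    ∀ (e k D κ p q r x y z G : ℕ) (s₁ s₃ t₁ t₃ : ℤ) (S R u : ℝ), 0 < p → 0 < q → 0 < r →
      0 < k → 0 < D → 0 < x → 0 < y →
      ((e : ℝ) + 1) * ((κ : ℝ) ^ 2 * (1 / p + 1 / q + 1 / r) / 2 + 3 * κ) ≤ e * ((k : ℝ) * D) →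
      (k : ℝ) ≤ σ * D →
      (2 * e + 2 : ℝ) * (k + D) ≤ σ * k * Real.log ((s₁ : ℚ) / s₃).den →
      (2 * e + 2 : ℝ) * (k + D) ≤ σ * D * Real.log ((t₁ : ℚ) / t₃).den →
      s₃ ≠ 0 → t₃ ≠ 0 → (x : ℤ) ^ p ∣ s₁ → (y : ℤ) ^ q ∣ s₁ + s₃ → (z : ℤ) ^ r ∣ s₃ →
      (x : ℤ) ∣ t₁ → (y : ℤ) ∣ t₁ + t₃ → (z : ℤ) ∣ t₃ →
      Nat.gcd x y ≤ G → Nat.gcd x z ≤ G → Nat.gcd y z ≤ G → 0 ≤ u → u ≤ 1 →
      |(s₁ : ℝ)| ≤ S * u ^ p → |(s₃ : ℝ)| ≤ S → |(t₁ : ℝ)| ≤ R * u → |(t₃ : ℝ)| ≤ R →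
      ∃ a j : ℕ, (a : ℝ) ≤ θ₀ * k ∧ (j : ℝ) ≤ θ₀ * D ∧
        (x : ℝ) ^ (κ - (p * a + j)) * (y : ℝ) ^ (κ - (q * a + j)) * (z : ℝ) ^ κ ≤
          2 ^ ((2 * e + 2) * (k + D)) * (S ^ k * R ^ D * u ^ (κ - (p * a + j))) *
            (G : ℝ) ^ (3 * κ) := by
  classical
  obtain ⟨σ, hσ, H⟩ := roth_lemma 2 h0
  refine ⟨σ, hσ, fun e k D κ p q r x y z G s₁ s₃ t₁ t₃ S R u hp hq hr hk hD hx hy hcount hkD hs ht
    hs3 ht3 d1 d2 d3 e1 e2 e3 g1 g2 g3 hu0 hu1 b1 b3 c1 c3 => ?_⟩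
  obtain ⟨P, hP0, hPk, hPD, i1, i2, i3, hl⟩ := aux_poly e k D κ hp hq hr hcount
  have hk' : (0 : ℝ) < k := by exact_mod_cast hk
  have hD' : (0 : ℝ) < D := by exact_mod_cast hD
  have hP1 := one_le_l1 hP0
  have hlog : Real.log (l1 P) + ((k : ℝ) + D) ≤ (2 * e + 2 : ℝ) * (k + D) := by
    have h1 := Real.log_le_log (by linarith) hl
    rw [Real.log_pow] at h1
    have h2 : Real.log 2 ≤ 1 := by linarith [Real.log_two_lt_d9]
    have h3 : (((2 * e + 1) * (k + D) : ℕ) : ℝ) * Real.log 2 ≤ ((2 * e + 1) * (k + D) : ℕ) :=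
      mul_le_of_le_one_right (Nat.cast_nonneg _) h2
    push_cast at h1 h3
    linarith
  have hR := H ![k, D] ![(s₁ : ℚ) / s₃, (t₁ : ℚ) / t₃] P hP0
    (by intro h; fin_cases h; exacts [hk, hD])
    (by
      intro h h' hh
      fin_cases h <;> fin_cases h'
      · exact absurd hh (lt_irrefl _)
      · exact hkD
      · exact absurd hh (by decide)
      · exact absurd hh (lt_irrefl _))
    (by intro h; fin_cases h; exacts [hPk, hPD])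
    (by
      intro h
      rw [Fin.sum_univ_two]
      fin_cases h
      · exact hlog.trans hs
      · exact hlog.trans ht)
  unfold IdxGe at hR
  push Not at hR
  obtain ⟨ν, hν, hw⟩ := hR
  rw [Finsupp.weight_eq_sum, Fin.sum_univ_two] at hw
  simp only [Matrix.cons_val_zero, Matrix.cons_val_one, nsmul_eq_mul, mul_one_div] at hw
  have w0 : (0 : ℝ) ≤ (ν 0 : ℝ) / k := by positivity
  have w1 : (0 : ℝ) ≤ (ν 1 : ℝ) / D := by positivity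
  refine ⟨ν 0, ν 1, (div_le_iff₀ hk').mp (by linarith), (div_le_iff₀ hD').mp (by linarith), ?_⟩
  set Q := hasse ν P with hQ
  have hQk : DegLe 0 k Q := hPk.hasse ν
  have hQD : DegLe 1 D Q := hPD.hasse ν
  set N := hv k D s₁ s₃ t₁ t₃ Q with hN
  have hN0 : N ≠ 0 := by
    intro h
    have h1 := hv_eq hs3 ht3 s₁ t₁ hQk hQD
    rw [← hN, h, Int.cast_zero] at h1
    rw [MvPolynomial.mem_support_iff, coeff_shift, ← map_hasse, eval_map] at hν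
    have hs' : (s₃ : ℚ) ≠ 0 := by exact_mod_cast hs3
    have ht' : (t₃ : ℚ) ≠ 0 := by exact_mod_cast ht3
    exact hν ((mul_eq_zero.mp h1.symm).resolve_left (by positivity))
  have j1 : ∀ μ ∈ Q.support, κ - (p * ν 0 + ν 1) ≤ p * μ 0 + μ 1 := by
    intro μ hμ
    have := i1 _ (mem_support_hasse hμ)
    simp only [Finsupp.add_apply, mul_add] at this
    omega
  have j2 : ∀ μ ∈ (shift (fun _ => (-1 : ℤ)) Q).support, κ - (q * ν 0 + ν 1) ≤ q * μ 0 + μ 1 := by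
    intro μ hμ
    rw [hQ, ← hasse_shift] at hμ
    have := i2 _ (mem_support_hasse hμ)
    simp only [Finsupp.add_apply, mul_add] at this
    omega
  have j3 : ∀ μ ∈ Q.support, κ ≤ r * (k - μ 0) + (D - μ 1) := by
    intro μ hμ
    have := i3 _ (mem_support_hasse hμ)
    simp only [Finsupp.add_apply] at this
    exact this.trans (add_le_add (Nat.mul_le_mul_left _ (by omega)) (by omega))
  have v1 : x ^ (κ - (p * ν 0 + ν 1)) ∣ N.natAbs := by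
    rw [← Int.natCast_dvd, Nat.cast_pow]
    exact dvd_hv _ _ d1 e1 j1
  have v2 : y ^ (κ - (q * ν 0 + ν 1)) ∣ N.natAbs := by
    rw [← Int.natCast_dvd, Nat.cast_pow, hN, hv_shift hs3 ht3 _ _ hQk hQD]
    exact dvd_hv _ _ d2 e2 j2
  have v3 : z ^ κ ∣ N.natAbs := by
    rw [← Int.natCast_dvd, Nat.cast_pow]
    exact dvd_hv' _ _ d3 e3 j3
  have m1 := (mul_le_of_dvd (Int.natAbs_pos.mpr hN0) v1 v2 v3).trans
    (Nat.mul_le_mul_left _ (Nat.mul_le_mul (gcd_pow_le hx g1 (Nat.sub_le κ _) (Nat.sub_le κ _))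
      (Nat.mul_le_mul (gcd_pow_le hx g2 (Nat.sub_le κ _) le_rfl)
        (gcd_pow_le hy g3 (Nat.sub_le κ _) le_rfl))))
  have m2 : (x : ℝ) ^ (κ - (p * ν 0 + ν 1)) * (y : ℝ) ^ (κ - (q * ν 0 + ν 1)) * (z : ℝ) ^ κ ≤
      |(N : ℝ)| * (G : ℝ) ^ (3 * κ) := by
    have h1 : (G : ℝ) ^ (3 * κ) = (G : ℝ) ^ κ * ((G : ℝ) ^ κ * (G : ℝ) ^ κ) := by ring
    rw [h1, ← Int.cast_abs, Int.abs_eq_natAbs]
    exact_mod_cast m1
  refine m2.trans (mul_le_mul_of_nonneg_right ?_ (by positivity))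
  have hS : 0 ≤ S := (abs_nonneg _).trans b3
  have hR0 : 0 ≤ R := (abs_nonneg _).trans c3
  refine (abs_hv_le hu0 hu1 b1 b3 c1 c3 hQk hQD j1).trans
    (mul_le_mul_of_nonneg_right ?_ (by positivity))
  refine (l1_hasse_le ν P (E := k + D) fun μ hμ => ?_).trans ?_
  · rw [Fin.sum_univ_two]
    exact add_le_add (hPk μ hμ) (hPD μ hμ)
  · calc (2 : ℝ) ^ (k + D) * l1 P ≤ 2 ^ (k + D) * 2 ^ ((2 * e + 1) * (k + D)) := by gcongr
      _ = _ := by ring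

theorem log_le_of_dvd {w n G : ℕ} {c : ℤ} (hw : 0 < w) (hc : c ≠ 0) (h : (w : ℤ) ∣ c * n)
    (hG : Nat.gcd n w ≤ G) : Real.log w ≤ Real.log |(c : ℝ)| + Real.log G := by
  have hg := Nat.gcd_pos_of_pos_right n hw
  have h1 : w ∣ c.natAbs * Nat.gcd n w := by
    rw [← Nat.gcd_mul_left]
    refine Nat.dvd_gcd ?_ (Dvd.intro_left _ rfl)
    have := Int.natAbs_dvd_natAbs.mpr h
    rwa [Int.natAbs_mul, Int.natAbs_natCast, Int.natAbs_natCast] at this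
  have h2 : w ≤ c.natAbs * G :=
    (Nat.le_of_dvd (Nat.mul_pos (Int.natAbs_pos.mpr hc) hg) h1).trans (Nat.mul_le_mul_left _ hG)
  have h3 : (w : ℝ) ≤ |(c : ℝ)| * G := by
    rw [← Int.cast_abs, Int.abs_eq_natAbs]
    exact_mod_cast h2
  have h4 : (0 : ℝ) < |(c : ℝ)| := abs_pos.mpr (by exact_mod_cast hc)
  have h5 : (0 : ℝ) < G := by exact_mod_cast lt_of_lt_of_le hg hG
  rw [← Real.log_mul h4.ne' h5.ne']
  exact Real.log_le_log (by exact_mod_cast hw) h3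

theorem log_den_ge {w n G : ℕ} {c d : ℤ} (hw : 0 < w) (hc : c ≠ 0) (hd : d ≠ 0)
    (hG : Nat.gcd n w ≤ G) :
    Real.log w ≤ Real.log (((c * n : ℤ) : ℚ) / ((d * w : ℤ) : ℚ)).den + Real.log |(c : ℝ)| +
      Real.log G := by
  set u : ℚ := ((c * n : ℤ) : ℚ) / ((d * w : ℤ) : ℚ) with hu
  have hdw : ((d * w : ℤ) : ℚ) ≠ 0 := by
    have : d * (w : ℤ) ≠ 0 := mul_ne_zero hd (by exact_mod_cast hw.ne')
    exact_mod_cast this
  have h1 : ((u.den * c * n : ℤ) : ℚ) = ((w * (u.num * d) : ℤ) : ℚ) := by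
    have h2 : u * ((d * w : ℤ) : ℚ) = ((c * n : ℤ) : ℚ) := by rw [hu, div_mul_cancel₀ _ hdw]
    have h3 := Rat.mul_den_eq_num u
    push_cast at h2 ⊢
    linear_combination (d * w : ℚ) * h3 - (u.den : ℚ) * h2
  have h2 : (u.den * c * n : ℤ) = w * (u.num * d) := by exact_mod_cast h1
  have hden : ((u.den : ℤ)) ≠ 0 := by exact_mod_cast u.den_nz
  have h3 := log_le_of_dvd hw (mul_ne_zero hden hc) ⟨_, h2⟩ hG
  have h4 : (0 : ℝ) < u.den := by exact_mod_cast u.den_pos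
  have h5 : (0 : ℝ) < |(c : ℝ)| := abs_pos.mpr (by exact_mod_cast hc)
  push_cast at h3
  rwa [abs_mul, abs_of_pos h4, Real.log_mul h4.ne' h5.ne'] at h3

end Pool.Agent.Lib.MP_4ffbf9_nt.H
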