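import Mathlib
import Pool.Agent.Lib.MP_4ffbf9_nt.H.Step

/-!
No almost perfect power solution of large height whose roots lie on a line of small height.
-/

set_option autoImplicit false

namespace Pool.Agent.Lib.MP_4ffbf9_nt.H

open Finset

theorem abs_le_exp {c : ℤ} (hc : c ≠ 0) {t : ℝ} (h : Real.log |(c : ℝ)| ≤ t) :
    |(c : ℝ)| ≤ Real.exp t :=
  (Real.log_le_iff_le_exp (abs_pos.mpr (by exact_mod_cast hc))).mp h

theorem log_abs_nonneg {c : ℤ} (hc : c ≠ 0) : 0 ≤ Real.log |(c : ℝ)| :=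
  Real.log_nonneg (by exact_mod_cast Int.one_le_abs hc)

theorem log_abs_mul {c : ℤ} (hc : c ≠ 0) {x : ℕ} (hx : 0 < x) (p : ℕ) :
    Real.log |((c * x ^ p : ℤ) : ℝ)| = Real.log |(c : ℝ)| + p * Real.log x := by
  have hx' : (0 : ℝ) < x := by exact_mod_cast hx
  push_cast
  rw [abs_mul, abs_of_pos (pow_pos hx' p),
    Real.log_mul (abs_pos.mpr (by exact_mod_cast hc)).ne' (pow_pos hx' p).ne', Real.log_pow]

theorem log_gcd_le {x y p q G : ℕ} {t : ℝ} (hx : 0 < x) (hp : 0 < p) (hq : 0 < q)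
    (h : Nat.gcd (x ^ p) (y ^ q) ≤ G) (hG : Real.log G ≤ t) :
    Real.log (Nat.gcd x y) ≤ t / p + t / q := by
  have hg : 0 < Nat.gcd x y := Nat.gcd_pos_of_pos_left _ hx
  have hg' : (0 : ℝ) < Nat.gcd x y := by exact_mod_cast hg
  have ht : 0 ≤ t := (Real.log_natCast_nonneg _).trans hG
  have key : ∀ m : ℕ, 0 < m → m ≤ p → m ≤ q → Real.log (Nat.gcd x y) ≤ t / m := by
    intro m hm h1 h2
    have h3 : Nat.gcd x y ^ m ≤ G :=
      le_trans (Nat.le_of_dvd (Nat.gcd_pos_of_pos_left _ (pow_pos hx p)) (Nat.dvd_gcd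
        ((pow_dvd_pow_of_dvd (Nat.gcd_dvd_left _ _) m).trans (pow_dvd_pow _ h1))
        ((pow_dvd_pow_of_dvd (Nat.gcd_dvd_right _ _) m).trans (pow_dvd_pow _ h2)))) h
    rw [le_div_iff₀ (by exact_mod_cast hm), mul_comm, ← Real.log_pow]
    exact (Real.log_le_log (by positivity) (by exact_mod_cast h3)).trans hG
  rcases le_total p q with h1 | h1
  · exact (key p hp le_rfl h1).trans (le_add_of_nonneg_right (by positivity))
  · exact (key q hq h1 le_rfl).trans (le_add_of_nonneg_left (by positivity))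

theorem final_ineq {δ τ θ κ k D L ξ₁ ξ₂ ξ₃ Λ m₁ m₂ w ly lz lG a j p q E : ℝ}
    (hδ : 0 < δ) (hτ0 : 0 < τ) (hτ : τ ≤ 1) (hκ : 0 < κ) (hΛ : Λ = ξ₁ + ξ₂ + ξ₃) (x1 : 0 < ξ₁)
    (x2 : 0 < ξ₂) (x3 : 0 < ξ₃) (hp : p * ξ₁ = L) (hq : q * ξ₂ = L) (hL : 0 < L)
    (hkL : k * L ≤ (τ / 2 + δ / 40) * (κ * Λ)) (hkL' : k * L ≤ κ * Λ) (hD : D ≤ 4 * κ)
    (hDθ : D * θ ≤ (τ / 2 - δ + δ / 8 + δ / 80) * κ) (hj0 : 0 ≤ j)
    (ha : a ≤ δ / 48 * k) (hj : j ≤ δ / 48 * D)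
    (hm1 : κ - (p * a + j) ≤ m₁) (hm10 : 0 ≤ m₁) (hm2 : κ - (q * a + j) ≤ m₂) (hm20 : 0 ≤ m₂)
    (hw : τ * ξ₁ ≤ w) (hy : τ * ξ₂ ≤ ly) (hz : τ * ξ₃ ≤ lz) (hG : lG ≤ δ / 40 * Λ)
    (hE : E ≤ κ * Λ * (δ / 8))
    (h : m₁ * w + m₂ * ly + κ * lz ≤ E + (k * L + D * (θ * Λ)) + 3 * κ * lG) : False := by
  have hΛ0 : 0 < Λ := by linarith
  set M := κ * Λ with hM
  have hM0 : 0 < M := by positivity
  have aL : a * L ≤ δ / 48 * M := by
    calc a * L ≤ δ / 48 * k * L := by gcongr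
      _ = δ / 48 * (k * L) := by ring
      _ ≤ _ := by gcongr
  have jΛ : j * Λ ≤ δ / 48 * (4 * M) := by
    calc j * Λ ≤ δ / 48 * (4 * κ) * Λ :=
          mul_le_mul_of_nonneg_right (hj.trans (by gcongr)) hΛ0.le
      _ = _ := by rw [hM]; ring
  have b1 : κ * ξ₁ - a * L - j * ξ₁ ≤ m₁ * ξ₁ := by
    calc _ = (κ - (p * a + j)) * ξ₁ := by rw [← hp]; ring
      _ ≤ _ := by gcongr
  have b2 : κ * ξ₂ - a * L - j * ξ₂ ≤ m₂ * ξ₂ := by
    calc _ = (κ - (q * a + j)) * ξ₂ := by rw [← hq]; ring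
      _ ≤ _ := by gcongr
  have b8 : j * ξ₁ + j * ξ₂ ≤ j * Λ := by
    rw [← mul_add]
    exact mul_le_mul_of_nonneg_left (by linarith) hj0
  have b10 : κ * ξ₁ + κ * ξ₂ + κ * ξ₃ = M := by rw [hM, hΛ]; ring
  have b3 : τ * (M - δ / 8 * M) ≤ τ * (m₁ * ξ₁ + m₂ * ξ₂ + κ * ξ₃) :=
    mul_le_mul_of_nonneg_left (by linarith) hτ0.le
  have b4 : τ * (δ / 8 * M) ≤ δ / 8 * M := mul_le_of_le_one_left (by positivity) hτ
  have c1 := mul_le_mul_of_nonneg_left hw hm10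
  have c2 := mul_le_mul_of_nonneg_left hy hm20
  have c3 := mul_le_mul_of_nonneg_left hz hκ.le
  have b5 : 3 * κ * lG ≤ 3 * (δ / 40) * M := by
    calc 3 * κ * lG ≤ 3 * κ * (δ / 40 * Λ) := by gcongr
      _ = _ := by rw [hM]; ring
  have b7 : D * (θ * Λ) ≤ (τ / 2 - δ + δ / 8 + δ / 80) * M := by
    calc D * (θ * Λ) = D * θ * Λ := by ring
      _ ≤ (τ / 2 - δ + δ / 8 + δ / 80) * κ * Λ := by gcongr
      _ = _ := by rw [hM]; ring
  have hδM : 0 < δ * M := by positivity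
  linarith

/-- The choice of the degrees. -/
theorem exists_degrees {δ τ θ σ S : ℝ} {J N n p : ℕ} (hδ : 0 < δ) (hδ' : δ = τ / 2 - θ / τ)
    (hτ0 : 2 / 3 ≤ τ) (hτ : τ ≤ 1) (h0 : 0 ≤ θ) (hJ : 4 / δ ≤ J) (hN : 40 / δ + (12 * J + 6) ≤ N)
    (hp : 0 < p) (hS : 1 / (p : ℝ) ≤ S) (hS1 : S ≤ 1) (hSσ : S ≤ σ) (hn : n = p * N) :
    ∃ k D : ℕ, 0 < n ∧ 0 < k ∧ 0 < D ∧
      (((2 * J : ℕ) : ℝ) + 1) * ((n : ℝ) ^ 2 * S / 2 + 3 * n) ≤ ((2 * J : ℕ) : ℝ) * ((k : ℝ) * D) ∧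
      (k : ℝ) ≤ σ * D ∧ (n : ℝ) * S / 3 ≤ k ∧ (k : ℝ) ≤ (τ / 2 + δ / 40) * (n * S) ∧
      (k : ℝ) ≤ n * S ∧ (n : ℝ) ≤ D ∧ (D : ℝ) ≤ 4 * n ∧
      (D : ℝ) * θ ≤ (τ / 2 - δ + δ / 8 + δ / 80) * n ∧
      (2 * ((2 * J : ℕ) : ℝ) + 2) * ((k : ℝ) + D) ≤ (20 * J + 10) * n := by
  have hτp : 0 < τ := by linarith
  have hθτ : 0 ≤ θ / τ := by positivity
  have hδ1 : δ ≤ 1 / 2 := by linarith
  have hJ0 : (0 : ℝ) < J := lt_of_lt_of_le (by positivity) hJ
  have hJε : 1 / (J : ℝ) ≤ δ / 4 := by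
    rw [div_le_iff₀ hδ] at hJ
    rw [div_le_iff₀ hJ0]
    linarith
  have hJi : 0 < 1 / (J : ℝ) := by positivity
  have hp' : (1 : ℝ) ≤ p := by exact_mod_cast hp
  have h40 : 0 < 40 / δ := by positivity
  have hN0 : (0 : ℝ) < N := by linarith
  have hnr : (n : ℝ) = p * N := by rw [hn]; push_cast; ring
  have hNn : (N : ℝ) ≤ n := by rw [hnr]; exact le_mul_of_one_le_left hN0.le hp'
  have hn0 : (0 : ℝ) < n := by linarith
  have hS0 : 0 < S := lt_of_lt_of_le (by positivity) hS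
  set T := (n : ℝ) * S with hT
  have hNT : (N : ℝ) ≤ T := by
    calc (N : ℝ) = p * N * (1 / p) := by field_simp
      _ ≤ _ := by rw [hT, hnr]; gcongr
  have hT0 : 0 < T := by linarith
  have one : ∀ t : ℝ, (N : ℝ) ≤ t → 1 ≤ δ / 40 * t := by
    intro t ht
    calc (1 : ℝ) = δ / 40 * (40 / δ) := by field_simp
      _ ≤ _ := by gcongr; linarith
  have hTn : T ≤ n := mul_le_of_le_one_right hn0.le hS1
  set c := (1 + 1 / (J : ℝ)) / τ with hc
  have hc1 : 1 ≤ c := by rw [hc, le_div_iff₀ hτp]; linarith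
  have hc3 : c ≤ 3 := by rw [hc, div_le_iff₀ hτp]; linarith
  have k1 := Nat.le_ceil (τ / 2 * T)
  have k2 := (Nat.ceil_lt_add_one (by positivity : 0 ≤ τ / 2 * T)).le
  have d1 := Nat.le_ceil (c * n)
  have d2 := (Nat.ceil_lt_add_one (by positivity : 0 ≤ c * n)).le
  set k := ⌈τ / 2 * T⌉₊
  set D := ⌈c * (n : ℝ)⌉₊
  have k3 : (k : ℝ) ≤ (τ / 2 + δ / 40) * T := by linarith [one T hNT]
  have k4 : (k : ℝ) ≤ T := k3.trans (mul_le_of_le_one_left hT0.le (by linarith))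
  have k5 : T / 3 ≤ k := le_trans (by
    have := mul_le_mul_of_nonneg_right hτ0 hT0.le
    linarith) k1
  have d3 : (D : ℝ) ≤ (c + δ / 40) * n := by linarith [one n hNn]
  have d4 : (n : ℝ) ≤ D := (le_mul_of_one_le_left hn0.le hc1).trans d1
  have d5 : (D : ℝ) ≤ 4 * n := d3.trans (mul_le_mul_of_nonneg_right (by linarith) hn0.le)
  refine ⟨k, D, by exact_mod_cast hn0, by exact_mod_cast (by linarith : (0 : ℝ) < k),
    by exact_mod_cast (by linarith : (0 : ℝ) < D), ?_, ?_, k5, k3, k4, d4, d5, ?_, ?_⟩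
  · have h1 : (τ / 2 * T) * (c * n) ≤ (k : ℝ) * D := by gcongr
    have h2 : 2 * (J : ℝ) * ((τ / 2 * T) * (c * n)) = (J + 1) * (n * T) := by
      rw [hc]; field_simp
    have h3 : (n : ℝ) ^ 2 * S / 2 = n * T / 2 := by rw [hT]; ring
    have h4 : (n : ℝ) * (12 * J + 6) ≤ n * T := by gcongr; linarith
    have h5 := mul_le_mul_of_nonneg_left h1 (by positivity : 0 ≤ 2 * (J : ℝ))
    rw [h3]
    push_cast
    linarith
  · refine k4.trans ?_
    rw [hT, mul_comm]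
    exact mul_le_mul hSσ d4 hn0.le (by linarith)
  · have h1 : c * θ = θ / τ + θ / τ * (1 / J) := by rw [hc]; field_simp
    have h2 : θ / τ * (1 / J) ≤ 1 / 2 * (δ / 4) := mul_le_mul (by linarith) hJε hJi.le (by norm_num)
    have h3 : θ ≤ 1 / 2 := by
      have : θ ≤ θ / τ := by rw [le_div_iff₀ hτp]; exact mul_le_of_le_one_right h0 hτ
      linarith
    have h4 : δ / 40 * θ ≤ δ / 40 * (1 / 2) := by gcongr
    calc (D : ℝ) * θ ≤ (c + δ / 40) * n * θ := by gcongr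
      _ = (c * θ + δ / 40 * θ) * n := by ring
      _ ≤ _ := mul_le_mul_of_nonneg_right (by linarith) hn0.le
  · push_cast
    calc (2 * (2 * (J : ℝ)) + 2) * ((k : ℝ) + D) ≤ (2 * (2 * (J : ℝ)) + 2) * (5 * n) := by
          gcongr; linarith
      _ = _ := by ring

theorem core_ord {τ θ : ℝ} (hτ0 : 0 < τ) (hτ : τ ≤ 1) (h0 : 0 ≤ θ) (hθ : 2 * θ < τ ^ 2) :
    ∃ (n₀ : ℕ) (ε c₀ : ℝ), 0 < ε ∧
    ∀ (p q r x y z G : ℕ) (a b c α β γ : ℤ) (L : ℝ), n₀ ≤ p → n₀ ≤ q → n₀ ≤ r → 0 < L →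
      0 < x → 0 < y → 0 < z → a ≠ 0 → c ≠ 0 → a * x ^ p + b * y ^ q + c * z ^ r = 0 →
      α * x + β * y + γ * z = 0 → (α ≠ 0 ∨ β ≠ 0 ∨ γ ≠ 0) →
      Nat.gcd (x ^ p) (y ^ q) ≤ G → Nat.gcd (x ^ p) (z ^ r) ≤ G → Nat.gcd (y ^ q) (z ^ r) ≤ G →
      Real.log |(a : ℝ)| + p * Real.log x ≤ L → Real.log |(c : ℝ)| + r * Real.log z ≤ L →
      Real.log |(a : ℝ)| + τ * L ≤ L → τ * L ≤ q * Real.log y → τ * L ≤ r * Real.log z →
      2 * (L / p) ≤ L / p + L / q + L / r → 2 * (L / q) ≤ L / p + L / q + L / r →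
      2 * (L / r) ≤ L / p + L / q + L / r →
      (α ≠ 0 → Real.log |(α : ℝ)| + Real.log x ≤ θ * (L / p + L / q + L / r) ∧
        Real.log |(α : ℝ)| + τ * (L / p) ≤ θ * (L / p + L / q + L / r)) →
      (β ≠ 0 → Real.log |(β : ℝ)| + Real.log y ≤ θ * (L / p + L / q + L / r)) →
      (γ ≠ 0 → Real.log |(γ : ℝ)| + Real.log z ≤ θ * (L / p + L / q + L / r)) →
      Real.log G ≤ ε * L → (α ≠ 0 ∧ β ≠ 0 ∧ γ ≠ 0) ∧ L / p + L / q + L / r < c₀ := by
  obtain ⟨δ, hδ⟩ : ∃ δ, δ = τ / 2 - θ / τ := ⟨_, rfl⟩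
  have hδ0 : 0 < δ := by
    rw [hδ, sub_pos, div_lt_iff₀ hτ0]
    linarith
  have hθδ : θ ≤ τ / 2 - δ := by
    have : θ ≤ θ / τ := by rw [le_div_iff₀ hτ0]; exact mul_le_of_le_one_right h0 hτ
    linarith
  obtain ⟨J, hJ⟩ := exists_nat_ge (4 / δ)
  obtain ⟨N, hN⟩ := exists_nat_ge (40 / δ + (12 * J + 6))
  obtain ⟨σ, hσ, H⟩ := step (θ₀ := δ / 48) (by positivity)
  obtain ⟨n₁, hn₁⟩ := exists_nat_ge (3 / σ)
  obtain ⟨K, hK⟩ : ∃ K : ℝ, K = 20 * J + 10 := ⟨_, rfl⟩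
  have hK0 : 0 < K := by rw [hK]; positivity
  refine ⟨max n₁ 3, δ / 40, K * (8 / δ) + K * (12 / σ) + K * (2 / (σ * δ)), by positivity,
    fun p q r x y z G a b c α β γ L hp hq hr hL hx hy hz ha hc hs ht hne g1 g2 g3 la lc la'
      ly lz t1 t2 t3 hα hβ hγ hG => ?_⟩
  have hp1 : 0 < p := lt_of_lt_of_le (by norm_num) (le_of_max_le_right hp)
  have hq1 : 0 < q := lt_of_lt_of_le (by norm_num) (le_of_max_le_right hq)
  have hr1 : 0 < r := lt_of_lt_of_le (by norm_num) (le_of_max_le_right hr)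
  have hp0 : (0 : ℝ) < p := by exact_mod_cast hp1
  have hq0 : (0 : ℝ) < q := by exact_mod_cast hq1
  have hr0 : (0 : ℝ) < r := by exact_mod_cast hr1
  have hS : 1 / (p : ℝ) + 1 / q + 1 / r ≤ σ ∧ 1 / (p : ℝ) + 1 / q + 1 / r ≤ 1 := by
    have e : ∀ s : ℕ, max n₁ 3 ≤ s → 1 / (s : ℝ) ≤ σ / 3 ∧ 1 / (s : ℝ) ≤ 1 / 3 := by
      intro s hs
      have h1 : (n₁ : ℝ) ≤ s := by exact_mod_cast le_of_max_le_left hs
      have h2 : (3 : ℝ) ≤ s := by exact_mod_cast le_of_max_le_right hs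
      refine ⟨?_, by gcongr⟩
      rw [div_le_iff₀ hσ] at hn₁
      rw [div_le_iff₀ (by linarith only [h2])]
      linarith only [hn₁, mul_le_mul_of_nonneg_right h1 hσ.le]
    exact ⟨by linarith only [(e p hp).1, (e q hq).1, (e r hr).1],
      by linarith only [(e p hp).2, (e q hq).2, (e r hr).2]⟩
  have x1 : 0 < L / p := by positivity
  have x2 : 0 < L / q := by positivity
  have x3 : 0 < L / r := by positivity
  have ly' : τ * (L / q) ≤ Real.log y := by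
    rw [← mul_div_assoc, div_le_iff₀ hq0, mul_comm _ (q : ℝ)]; exact ly
  have lz' : τ * (L / r) ≤ Real.log z := by
    rw [← mul_div_assoc, div_le_iff₀ hr0, mul_comm _ (r : ℝ)]; exact lz
  obtain ⟨g, f1, f2, f3, hg⟩ : ∃ g : ℕ, Nat.gcd x y ≤ g ∧ Nat.gcd x z ≤ g ∧ Nat.gcd y z ≤ g ∧
      Real.log g ≤ δ / 40 * (L / p + L / q + L / r) := by
    refine ⟨max (Nat.gcd x y) (max (Nat.gcd x z) (Nat.gcd y z)), le_max_left _ _,
      le_max_of_le_right (le_max_left _ _), le_max_of_le_right (le_max_right _ _), ?_⟩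
    have e1 := log_gcd_le hx hp1 hq1 g1 hG
    have e2 := log_gcd_le hx hp1 hr1 g2 hG
    have e3 := log_gcd_le hy hq1 hr1 g3 hG
    rw [mul_div_assoc, mul_div_assoc] at e1 e2 e3
    have y1 : 0 < δ / 40 * (L / p) := by positivity
    have y2 : 0 < δ / 40 * (L / q) := by positivity
    have y3 : 0 < δ / 40 * (L / r) := by positivity
    rcases max_choice (Nat.gcd x y) (max (Nat.gcd x z) (Nat.gcd y z)) with h | h <;> rw [h]
    · linarith only [e1, y3]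
    · rcases max_choice (Nat.gcd x z) (Nat.gcd y z) with h | h <;> rw [h]
      · linarith only [e2, y2]
      · linarith only [e3, y1]
  obtain ⟨Λ, hΛ⟩ : ∃ Λ, Λ = L / p + L / q + L / r := ⟨_, rfl⟩
  rw [← hΛ] at t1 t2 t3 hα hβ hγ hg ⊢
  have hΛ0 : 0 < Λ := by linarith only [hΛ, x1, x2, x3]
  have hΛS : Λ = (1 / (p : ℝ) + 1 / q + 1 / r) * L := by rw [hΛ]; ring
  have hθΛ : θ * Λ ≤ τ * Λ / 2 - δ * Λ := by
    linarith only [mul_le_mul_of_nonneg_right hθδ hΛ0.le]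
  have hδΛ : 0 < δ * Λ := by positivity
  have hτΛ : τ * Λ = τ * (L / p) + τ * (L / q) + τ * (L / r) := by rw [hΛ]; ring
  have s1 := mul_le_mul_of_nonneg_left t1 hτ0.le
  have s2 := mul_le_mul_of_nonneg_left t2 hτ0.le
  have s3 := mul_le_mul_of_nonneg_left t3 hτ0.le
  have hz' : (z : ℤ) ≠ 0 := by exact_mod_cast hz.ne'
  have a0 : α ≠ 0 := by
    intro a0
    have b0 : β ≠ 0 := by
      rintro rfl
      rw [a0] at ht hne
      simp [hz.ne'] at ht hne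
      exact hne ht
    have := log_le_of_dvd hz b0 ⟨-γ, by rw [a0] at ht; linarith only [ht]⟩ f3
    linarith only [this, hβ b0, ly', lz', hg, hθΛ, hδΛ, hτΛ, s1]
  have b0 : β ≠ 0 := by
    intro b0
    have := log_le_of_dvd hz a0 ⟨-γ, by rw [b0] at ht; linarith only [ht]⟩ f2
    linarith only [this, (hα a0).2, lz', hg, hθΛ, hδΛ, hτΛ, s2]
  have c0 : γ ≠ 0 := by
    intro c0
    have := log_le_of_dvd hy a0 ⟨-β, by rw [c0] at ht; linarith only [ht]⟩ f1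
    linarith only [this, (hα a0).2, ly', hg, hθΛ, hδΛ, hτΛ, s3]
  refine ⟨⟨a0, b0, c0⟩, ?_⟩
  by_contra hc₀
  rw [not_lt] at hc₀
  obtain ⟨hα1, hα2⟩ := hα a0
  replace hβ := hβ b0
  replace hγ := hγ c0
  have hτ23 : 2 / 3 ≤ τ := by
    have h1 : τ * Λ ≤ 3 * θ * Λ := by
      linarith only [hτΛ, hα2, hβ, hγ, ly', lz', log_abs_nonneg a0, log_abs_nonneg b0,
        log_abs_nonneg c0]
    have h2 := le_of_mul_le_mul_right h1 hΛ0
    have h3 : 2 / 3 * τ ≤ τ * τ := by linarith only [h2, hθ]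
    exact le_of_mul_le_mul_right h3 hτ0
  have k1 : 0 < K * (8 / δ) := by positivity
  have k2 : 0 < K * (12 / σ) := by positivity
  have k3 : 0 < K * (2 / (σ * δ)) := by positivity
  obtain ⟨k, D, hκ, hk, hD, hcount, hkD, k4, k5, k6, d1, d2, d3, hE⟩ :=
    exists_degrees (n := p * N) hδ0 hδ hτ23 hτ h0 hJ hN hp1
      (by have := one_div_pos.mpr hq0; have := one_div_pos.mpr hr0; linarith) hS.2 hS.1 rfl
  generalize p * N = κ at hκ hcount k4 k5 k6 d1 d2 d3 hE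
  rw [← hK] at hE
  have hκ0 : (0 : ℝ) < κ := by exact_mod_cast hκ
  have hκΛ : (κ : ℝ) * (1 / (p : ℝ) + 1 / q + 1 / r) * L = κ * Λ := by rw [hΛS]; ring
  have den1 : L / 4 ≤ Real.log ((((a * x ^ p : ℤ)) : ℚ) / ((c * z ^ r : ℤ) : ℚ)).den := by
    have h1 := log_den_ge (pow_pos hz r) ha hc g2
    rw [Nat.cast_pow, Nat.cast_pow, Nat.cast_pow, Real.log_pow] at h1
    have h2 : δ / 40 * L ≤ 1 / 80 * L :=
      mul_le_mul_of_nonneg_right (by linarith only [hθδ, h0, hτ]) hL.le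
    linarith only [h1, h2, hG, lz, la', mul_le_mul_of_nonneg_right hτ23 hL.le, hL]
  have den2 : δ * Λ / 2 ≤ Real.log ((((α * x : ℤ)) : ℚ) / ((γ * z : ℤ) : ℚ)).den := by
    have h1 := log_den_ge hz a0 c0 f2
    linarith only [h1, hα2, lz', hg, hθΛ, hδΛ, hτΛ, s2]
  have hxr : (0 : ℝ) < x := by exact_mod_cast hx
  have hyr : (0 : ℝ) < y := by exact_mod_cast hy
  have hzr : (0 : ℝ) < z := by exact_mod_cast hz
  have hg0 : (0 : ℝ) < g := by
    exact_mod_cast lt_of_lt_of_le (Nat.gcd_pos_of_pos_left _ hx) f1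
  obtain ⟨w, w1, w2, w3, w4⟩ : ∃ w, Real.log x ≤ w ∧ τ * (L / p) ≤ w ∧
      Real.log |(a : ℝ)| + p * w ≤ L ∧ Real.log |(α : ℝ)| + w ≤ θ * Λ := by
    rcases le_total (Real.log x) (τ * (L / p)) with h | h
    · refine ⟨_, h, le_rfl, ?_, hα2⟩
      rwa [show (p : ℝ) * (τ * (L / p)) = τ * L by field_simp]
    · exact ⟨_, le_rfl, h, la, hα1⟩
  have hx' : (x : ℤ) ≠ 0 := by exact_mod_cast hx.ne'
  obtain ⟨i, j, hi, hj, hfin⟩ := H (2 * J) k D κ p q r x y z g (a * x ^ p) (c * z ^ r) (α * x)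
    (γ * z) (Real.exp L) (Real.exp (θ * Λ)) (Real.exp (Real.log x - w)) hp1 hq1 hr1 hk hD hx hy
    hcount hkD
    (by
      refine hE.trans (le_trans ?_ (mul_le_mul_of_nonneg_left den1 (by positivity)))
      have h1 : K * (12 / σ) ≤ Λ := by linarith only [hc₀, k1, k3]
      have h2 : κ * Λ / 3 ≤ k * L := by
        linarith only [hκΛ, mul_le_mul_of_nonneg_right k4 hL.le]
      calc K * κ = σ / 4 * (κ * (K * (12 / σ)) / 3) := by field_simp; ring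
        _ ≤ σ / 4 * (κ * Λ / 3) := by gcongr
        _ ≤ σ / 4 * (k * L) := by gcongr
        _ = _ := by ring)
    (by
      refine hE.trans (le_trans ?_ (mul_le_mul_of_nonneg_left den2 (by positivity)))
      have h1 : K * (2 / (σ * δ)) ≤ Λ := by linarith only [hc₀, k1, k2]
      calc K * κ = σ * κ * (δ * (K * (2 / (σ * δ))) / 2) := by field_simp
        _ ≤ _ := by gcongr)
    (mul_ne_zero hc (pow_ne_zero _ hz')) (mul_ne_zero c0 hz') (Dvd.intro_left _ rfl)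
    ⟨-b, by linarith only [hs]⟩ (Dvd.intro_left _ rfl) (Dvd.intro_left _ rfl)
    ⟨-β, by linarith only [ht]⟩ (Dvd.intro_left _ rfl) f1 f2 f3 (Real.exp_pos _).le
    (Real.exp_le_one_iff.mpr (by linarith only [w1]))
    (by
      rw [← Real.exp_nat_mul, ← Real.exp_add]
      refine abs_le_exp (mul_ne_zero ha (pow_ne_zero _ hx')) ?_
      rw [log_abs_mul ha hx]
      linarith only [w3])
    (abs_le_exp (mul_ne_zero hc (pow_ne_zero _ hz')) (by rw [log_abs_mul hc hz]; exact lc))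
    (by
      rw [← Real.exp_add]
      refine abs_le_exp (mul_ne_zero a0 hx') ?_
      have := log_abs_mul a0 hx 1
      rw [pow_one, Nat.cast_one, one_mul] at this
      linarith only [this, w4])
    (by
      refine abs_le_exp (mul_ne_zero c0 hz') ?_
      have := log_abs_mul c0 hz 1
      rw [pow_one, Nat.cast_one, one_mul] at this
      linarith only [this, hγ])
  have hlog := Real.log_le_log (by positivity) hfin
  rw [Real.log_mul (by positivity) (by positivity), Real.log_mul (by positivity) (by positivity),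
    Real.log_mul (by positivity) (by positivity), Real.log_mul (by positivity) (by positivity),
    Real.log_mul (by positivity) (by positivity), Real.log_mul (by positivity) (by positivity)]
    at hlog
  simp only [Real.log_pow, Real.log_exp] at hlog
  have hsub : ∀ s : ℕ, (κ : ℝ) - (s * i + j) ≤ ((κ - (s * i + j) : ℕ) : ℝ) := by
    intro s
    have : κ ≤ κ - (s * i + j) + (s * i + j) := le_tsub_add
    have h2 : (κ : ℝ) ≤ ((κ - (s * i + j) : ℕ) : ℝ) + (s * i + j) := by exact_mod_cast this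
    linarith only [h2]
  have hE2 : (((2 * (2 * J) + 2) * (k + D) : ℕ) : ℝ) * Real.log 2 ≤ κ * Λ * (δ / 8) := by
    have h2 : Real.log 2 ≤ 1 := by linarith only [Real.log_two_lt_d9]
    refine (mul_le_of_le_one_right (Nat.cast_nonneg _) h2).trans ?_
    have h1 : K * (8 / δ) ≤ Λ := by linarith only [hc₀, k2, k3]
    calc _ = (2 * ((2 * J : ℕ) : ℝ) + 2) * ((k : ℝ) + D) := by push_cast; ring
      _ ≤ K * κ := hE
      _ = κ * (K * (8 / δ)) * (δ / 8) := by field_simp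
      _ ≤ _ := by gcongr
  refine final_ineq (θ := θ) (p := p) (q := q) (k := k) hδ0 hτ0 hτ hκ0 hΛ x1 x2 x3
    (by field_simp) (by field_simp) hL ?_ ?_ d2 d3
    (Nat.cast_nonneg j) hi hj (hsub p) (Nat.cast_nonneg _) (hsub q) (Nat.cast_nonneg _)
    w2 ly' lz' hg hE2 ?_
  · rw [← hκΛ, ← mul_assoc]
    exact mul_le_mul_of_nonneg_right k5 hL.le
  · rw [← hκΛ]
    exact mul_le_mul_of_nonneg_right k6 hL.le
  · push_cast at hlog ⊢
    linarith only [hlog]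

end Pool.Agent.Lib.MP_4ffbf9_nt.H
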