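import Mathlib
import Pool.Agent.Lib.MP_4ffbf9_nt.H.Core

/-!
The symmetric form of the core estimate, and finiteness.
-/

set_option autoImplicit false

namespace Pool.Agent.Lib.MP_4ffbf9_nt.H

open Finset

theorem sum3 {M : Type*} [AddCommMonoid M] (f : Fin 3 → M) {i j l : Fin 3} (hij : i ≠ j)
    (hil : i ≠ l) (hjl : j ≠ l) : ∑ m, f m = f i + f j + f l := by
  have h : ∀ i j l : Fin 3, i ≠ j → i ≠ l → j ≠ l → (univ : Finset (Fin 3)) = {i, j, l} := by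
    decide
  rw [h i j l hij hil hjl, sum_insert (by simp [hij, hil]), sum_pair hjl, add_assoc]

theorem exists_slack {η θ : ℝ} (hη : η < 1) (hθ : 2 * θ < (1 - η) ^ 2) :
    ∃ ζ : ℝ, 0 < ζ ∧ ζ ≤ 1 / 10 ∧ η + 2 * ζ < 1 ∧ 2 * (θ + ζ) < (1 - (η + 2 * ζ)) ^ 2 := by
  have h1 : ContinuousAt (fun ζ : ℝ => (1 - (η + 2 * ζ)) ^ 2 - 2 * (θ + ζ)) 0 := by fun_prop
  have h2 : ContinuousAt (fun ζ : ℝ => 1 - (η + 2 * ζ)) 0 := by fun_prop
  have h3 := (h1.eventually (lt_mem_nhds (a := 0) (by simpa using hθ))).and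
    ((h2.eventually (lt_mem_nhds (a := 0) (by simpa using hη))).and
      (gt_mem_nhds (by norm_num : (0 : ℝ) < 1 / 10)))
  obtain ⟨ζ, ⟨a, b, c⟩, h0⟩ := ((h3.filter_mono nhdsWithin_le_nhds).and
    (self_mem_nhdsWithin (s := Set.Ioi (0 : ℝ)))).exists
  exact ⟨ζ, h0, c.le, by linarith, by linarith⟩

theorem core {η θ : ℝ} (hη0 : 0 ≤ η) (hη : η < 1) (h0 : 0 ≤ θ) (hθ : 2 * θ < (1 - η) ^ 2) :
    ∃ (n₀ : ℕ) (ε c₀ : ℝ), 0 < ε ∧ 1 ≤ n₀ ∧
    ∀ (A α : Fin 3 → ℤ) (X a x p : Fin 3 → ℕ) (G : ℕ) (L : ℝ), (∀ i, A i ≠ 0) → (∀ i, 0 < X i) →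
      ∑ i, A i * X i = 0 → (∀ i, X i = a i * x i ^ p i) → (∀ i, n₀ ≤ p i) →
      (∀ i, Real.log (X i) ≤ L) → (∃ i, L = Real.log (X i)) → (∀ i, Real.log (a i) ≤ η * L) →
      (∀ i, Real.log |(A i : ℝ)| + 1 ≤ ε * L) → Real.log G ≤ ε * L →
      (∀ i j, i ≠ j → Nat.gcd (x i ^ p i) (x j ^ p j) ≤ G) →
      (∀ i, 2 * (L / p i) ≤ ∑ j, L / p j) → α ≠ 0 → ∑ i, α i * x i = 0 →
      (∀ i, α i ≠ 0 → Real.log |(α i : ℝ)| + Real.log (x i) ≤ θ * ∑ j, L / p j ∧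
        Real.log |(α i : ℝ)| + (1 - η) * (L / p i) ≤ θ * ∑ j, L / p j) →
      (∀ i, α i ≠ 0) ∧ ∑ j, L / p j < c₀ := by
  obtain ⟨ζ, hζ, hζ1, hζ2, hζ3⟩ := exists_slack hη hθ
  obtain ⟨n₀, ε, c₀, hε, H⟩ := core_ord (τ := 1 - (η + 2 * ζ)) (θ := θ) (by linarith) (by linarith)
    h0 (by linarith)
  refine ⟨max n₀ 1, min ε ζ, c₀, lt_min hε hζ, le_max_right _ _,
    fun A α X a x p G L hA hX hs hXa hp hXL ⟨l, hl⟩ ha hAL hGb hG htri hα ht hαb => ?_⟩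
  have ha0 : ∀ i, 0 < a i := fun i => Nat.pos_of_mul_pos_right (hXa i ▸ hX i)
  have hp1 : ∀ i, 1 ≤ p i := fun i => le_of_max_le_right (hp i)
  have hx0 : ∀ i, 0 < x i := fun i => by
    have := Nat.pos_of_mul_pos_left (hXa i ▸ hX i)
    exact Nat.pos_of_ne_zero fun h => by
      rw [h, zero_pow (by have := hp1 i; omega)] at this
      exact lt_irrefl _ this
  have hXr : ∀ i, (0 : ℝ) < X i := fun i => by exact_mod_cast hX i
  have har : ∀ i, (0 : ℝ) < a i := fun i => by exact_mod_cast ha0 i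
  have hxr : ∀ i, (0 : ℝ) < x i := fun i => by exact_mod_cast hx0 i
  have hAr : ∀ i, (0 : ℝ) < |(A i : ℝ)| := fun i => abs_pos.mpr (by exact_mod_cast hA i)
  have hlogX : ∀ i, Real.log (X i) = Real.log (a i) + p i * Real.log (x i) := by
    intro i
    rw [hXa i, Nat.cast_mul, Nat.cast_pow, Real.log_mul (har i).ne' (pow_pos (hxr i) _).ne',
      Real.log_pow]
  have hlA : ∀ i, 0 ≤ Real.log |(A i : ℝ)| := fun i => log_abs_nonneg (hA i)
  have hL0 : 0 < L := (mul_pos_iff_of_pos_left (lt_min hε hζ)).mp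
    (by linarith [hAL 0, hlA 0])
  have hAL' : ∀ i, Real.log |(A i : ℝ)| + 1 ≤ ζ * L := fun i =>
    (hAL i).trans (mul_le_mul_of_nonneg_right (min_le_right _ _) hL0.le)
  obtain ⟨i, j, hij, hil, hjl, hle⟩ : ∃ i j, i ≠ j ∧ i ≠ l ∧ j ≠ l ∧
      |A i * X i| ≤ |A j * X j| := by
    obtain ⟨i, j, hij, hil, hjl⟩ :=
      (by decide : ∀ l : Fin 3, ∃ i j : Fin 3, i ≠ j ∧ i ≠ l ∧ j ≠ l) l
    rcases le_total |A i * X i| |A j * X j| with h | h
    exacts [⟨i, j, hij, hil, hjl, h⟩, ⟨j, i, hij.symm, hjl, hil, h⟩]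
  rw [sum3 _ hij hil hjl] at hs ht
  simp only [sum3 (fun j => L / p j) hij hil hjl] at htri hαb ⊢
  have hj : L ≤ Real.log 2 + (Real.log |(A j : ℝ)| + Real.log (X j)) := by
    have h1 : (X l : ℤ) ≤ 2 * (|A j| * X j) := by
      have e : A l * X l = -(A i * X i + A j * X j) := by linarith
      calc (X l : ℤ) ≤ |A l * X l| := by
            rw [abs_mul, Nat.abs_cast]
            exact le_mul_of_one_le_left (Nat.cast_nonneg _) (Int.one_le_abs (hA l))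
        _ ≤ |A i * X i| + |A j * X j| := by rw [e, abs_neg]; exact abs_add_le _ _
        _ ≤ 2 * |A j * X j| := by linarith
        _ = _ := by rw [abs_mul, Nat.abs_cast]
    have h3 : (X l : ℝ) ≤ 2 * (|(A j : ℝ)| * X j) := by exact_mod_cast h1
    rw [hl, ← Real.log_mul (hAr j).ne' (hXr j).ne', ← Real.log_mul (by norm_num)
      (mul_pos (hAr j) (hXr j)).ne']
    exact Real.log_le_log (hXr l) h3
  have hc' : ∀ i, Real.log |((A i * a i : ℤ) : ℝ)| = Real.log |(A i : ℝ)| + Real.log (a i) := by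
    intro i
    push_cast
    rw [abs_mul, abs_of_pos (har i), Real.log_mul (hAr i).ne' (har i).ne']
  have hc0 : ∀ i, A i * a i ≠ 0 := fun i => mul_ne_zero (hA i) (by exact_mod_cast (ha0 i).ne')
  have hξ : ∀ i, 0 < L / p i := fun i => div_pos hL0 (by exact_mod_cast hp1 i)
  have hξ' : ∀ i, (1 + ζ) * L / p i = (1 + ζ) * (L / p i) := fun i => mul_div_assoc _ _ _
  have hτ : (1 - (η + 2 * ζ)) * (1 + ζ) ≤ 1 - η - ζ := by nlinarith
  have hτL : (1 - (η + 2 * ζ)) * ((1 + ζ) * L) ≤ (1 - η - ζ) * L := by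
    rw [← mul_assoc]
    exact mul_le_mul_of_nonneg_right hτ hL0.le
  have hζL : 0 < ζ * L := by positivity
  have hΛ : L / p i + L / p j + L / p l ≤
      (1 + ζ) * L / p i + (1 + ζ) * L / p j + (1 + ζ) * L / p l := by
    rw [hξ', hξ', hξ', ← mul_add, ← mul_add]
    exact le_mul_of_one_le_left (by linarith [hξ i, hξ j, hξ l]) (by linarith)
  have hθΛ := mul_le_mul_of_nonneg_left hΛ h0
  have htri' : ∀ m, 2 * ((1 + ζ) * L / p m) ≤
      (1 + ζ) * L / p i + (1 + ζ) * L / p j + (1 + ζ) * L / p l := fun m => by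
    rw [hξ', hξ', hξ', hξ', ← mul_add, ← mul_add, mul_left_comm]
    exact mul_le_mul_of_nonneg_left (htri m) (by linarith)
  obtain ⟨⟨n1, n2, n3⟩, n4⟩ := H (p i) (p j) (p l) (x i) (x j) (x l) G (A i * a i) (A j * a j)
    (A l * a l) (α i) (α j) (α l) ((1 + ζ) * L) (le_of_max_le_left (hp i))
    (le_of_max_le_left (hp j)) (le_of_max_le_left (hp l)) (by positivity)
    (hx0 i) (hx0 j) (hx0 l) (hc0 i) (hc0 l)
    (by
      rw [hXa i, hXa j, hXa l] at hs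
      push_cast at hs
      linarith)
    ht
    (by
      by_contra hn
      push Not at hn
      refine hα (funext fun m => ?_)
      have : ∀ i j l m : Fin 3, i ≠ j → i ≠ l → j ≠ l → m = i ∨ m = j ∨ m = l := by decide
      rcases this i j l m hij hil hjl with h | h | h <;> rw [h]
      exacts [hn.1, hn.2.1, hn.2.2])
    (hG i j hij) (hG i l hil) (hG j l hjl)
    (by linarith [hc' i, hlogX i, hXL i, hAL' i]) (by linarith [hc' l, hlogX l, hXL l, hAL' l])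
    (by linarith [hc' i, ha i, hAL' i])
    (by linarith [hlogX j, ha j, hAL' j, Real.log_two_lt_d9]) (by linarith [hlogX l, ha l])
    (htri' i) (htri' j) (htri' l)
    (fun h => ⟨(hαb i h).1.trans hθΛ, le_trans (by
      rw [hξ', ← mul_assoc]
      linarith [mul_le_mul_of_nonneg_right hτ (hξ i).le, mul_pos hζ (hξ i)])
      ((hαb i h).2.trans hθΛ)⟩)
    (fun h => (hαb j h).1.trans hθΛ) (fun h => (hαb l h).1.trans hθΛ)
    (hGb.trans (mul_le_mul (min_le_left _ _) (by linarith) hL0.le hε.le))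
  refine ⟨fun m => ?_, lt_of_le_of_lt hΛ n4⟩
  have : ∀ i j l m : Fin 3, i ≠ j → i ≠ l → j ≠ l → m = i ∨ m = j ∨ m = l := by decide
  rcases this i j l m hij hil hjl with h | h | h <;> rw [h]
  exacts [n1, n2, n3]

theorem exists_large {S : Set (Fin 3 → ℕ)} (hS : S.Infinite) (K : ℝ) :
    ∃ X ∈ S, ∃ i, K ≤ Real.log (X i) := by
  by_contra h
  push Not at h
  refine hS ((Set.Finite.pi' fun _ : Fin 3 => Set.finite_le_nat ⌈Real.exp K⌉₊).subset ?_)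
  intro X hX i
  rcases Nat.eq_zero_or_pos (X i) with h0 | h0
  · rw [h0]; exact Nat.zero_le _
  · have h1 := (Real.log_lt_iff_lt_exp (by exact_mod_cast h0)).mp (h X hX i)
    exact_mod_cast h1.le.trans (Nat.le_ceil _)

theorem quot_bounds {ν f L₁ L₂ c : ℝ} {p₁ p₂ : ℕ} (hν : 0 < ν) (hν1 : ν ≤ 1 / 2) (hf : 1 ≤ ν * f)
    (hc : 0 < c) (hL : 0 < L₁) (hLL : 2 * L₁ ≤ ν * L₂) (h1 : 0 < p₁) (h2 : f * p₁ ≤ c * L₁)
    (h3 : c * L₁ ≤ (f + 1) * p₁) (h5 : f * p₂ ≤ c * L₂) (h6 : c * L₂ ≤ (f + 1) * p₂) :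
    (1 - ν) * L₁ * (p₂ / p₁ : ℕ) ≤ L₂ ∧ L₂ ≤ (1 + 4 * ν) * L₁ * (p₂ / p₁ : ℕ) := by
  have hp1 : (0 : ℝ) < p₁ := by exact_mod_cast h1
  have hf0 : 0 < f := (mul_pos_iff_of_pos_left hν).mp (by linarith)
  have q1 : ((p₂ / p₁ : ℕ) : ℝ) * p₁ ≤ p₂ := by exact_mod_cast Nat.div_mul_le_self _ _
  have q2 : (p₂ : ℝ) ≤ ((p₂ / p₁ : ℕ) + 1) * p₁ := by
    have := Nat.lt_div_mul_add (a := p₂) h1
    have h7 : p₂ ≤ (p₂ / p₁ + 1) * p₁ := by rw [add_mul, one_mul]; omega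
    exact_mod_cast h7
  have q0 : (0 : ℝ) ≤ (p₂ / p₁ : ℕ) := Nat.cast_nonneg _
  generalize ((p₂ / p₁ : ℕ) : ℝ) = n at q0 q1 q2 ⊢
  have hf1 : f + 1 ≤ (1 + ν) * f := by linarith
  have hnL : 0 ≤ L₁ * n := by positivity
  have hL2 : 0 < L₂ := (mul_pos_iff_of_pos_left hν).mp (by linarith)
  constructor
  · have s1 : c * (L₁ * n) ≤ c * ((1 + ν) * L₂) := by
      calc c * (L₁ * n) = c * L₁ * n := by ring
        _ ≤ (1 + ν) * f * p₁ * n :=
            mul_le_mul_of_nonneg_right (h3.trans (mul_le_mul_of_nonneg_right hf1 hp1.le)) q0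
        _ = (1 + ν) * (f * (n * p₁)) := by ring
        _ ≤ (1 + ν) * (c * L₂) := mul_le_mul_of_nonneg_left
            ((mul_le_mul_of_nonneg_left q1 hf0.le).trans h5) (by linarith)
        _ = _ := by ring
    have s2 := mul_le_mul_of_nonneg_left (le_of_mul_le_mul_left s1 hc) (by linarith : 0 ≤ 1 - ν)
    nlinarith [mul_pos (mul_pos hν hν) hL2]
  · have s1 : c * L₂ ≤ c * ((1 + ν) * ((n + 1) * L₁)) := by
      calc c * L₂ ≤ (1 + ν) * f * ((n + 1) * p₁) := h6.trans (by gcongr)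
        _ = (1 + ν) * ((n + 1) * (f * p₁)) := by ring
        _ ≤ (1 + ν) * ((n + 1) * (c * L₁)) := by gcongr
        _ = _ := by ring
    have s2 := le_of_mul_le_mul_left s1 hc
    have s3 : ν * L₁ ≤ L₁ := mul_le_of_le_one_left hL.le (by linarith)
    have s4 : (1 - ν) * L₂ ≤ (1 + ν) * (L₁ * n) := by linarith
    have s5 : (1 + ν) * (L₁ * n) ≤ (1 - ν) * (1 + 4 * ν) * (L₁ * n) :=
      mul_le_mul_of_nonneg_right (by nlinarith) hnL
    refine le_of_mul_le_mul_left ?_ (by linarith : 0 < 1 - ν)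
    linarith

/-- Fixed bases and fixed profile: the smaller of two solutions gives the line. -/
theorem fixed_finite {η : ℝ} (hη0 : 0 ≤ η) (hη1 : η < 1) : ∃ N : ℕ, 0 < N ∧
    ∀ (A : Fin 3 → ℤ) (G : ℕ) (x f : Fin 3 → ℕ), (∀ i, A i ≠ 0) → (∀ i, N ≤ f i) →
    {X : Fin 3 → ℕ | 2 / 3 < (1 - η) ^ 2 ∧ (∀ i, 0 < X i) ∧ ∑ i, A i * X i = 0 ∧
      ∃ (p a : Fin 3 → ℕ) (L : ℝ),
      (∀ i, X i = a i * x i ^ p i) ∧ (∀ i, Real.log (X i) ≤ L) ∧ (∃ i, L = Real.log (X i)) ∧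
      (∀ i, Real.log (a i) ≤ η * L) ∧ (∀ i j, i ≠ j → Nat.gcd (x i ^ p i) (x j ^ p j) ≤ G) ∧
      ∀ i, 0 < p i ∧ (f i : ℝ) * p i ≤ 2 * N * L ∧ 2 * N * L ≤ (f i + 1) * p i}.Finite := by
  by_cases h23 : 2 / 3 < (1 - η) ^ 2
  swap
  · exact ⟨1, one_pos, fun _ _ _ _ _ _ => Set.finite_empty.subset fun _ hX => h23 hX.1⟩
  obtain ⟨ζ, hζ, hζ1, hζ2, hζ3⟩ := exists_slack (θ := 1 / 3) hη1 (by linarith)
  obtain ⟨n₀, ε, c₀, hε, hn₀, H⟩ := core (η := η + 2 * ζ) (θ := 1 / 3 + ζ) (by linarith) hζ2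
    (by linarith) hζ3
  obtain ⟨N, hN⟩ := exists_nat_ge (8 / ζ)
  have hN0 : (0 : ℝ) < N := lt_of_lt_of_le (by positivity) hN
  refine ⟨N, by exact_mod_cast hN0, fun A G x f hA hf => ?_⟩
  by_contra hS
  set V := ∑ i, Real.log |(A i : ℝ)| with hV
  have hAV : ∀ i, Real.log |(A i : ℝ)| ≤ V := fun i =>
    single_le_sum (f := fun i => Real.log |(A i : ℝ)|) (fun i _ => log_abs_nonneg (hA i))
      (mem_univ i)
  obtain ⟨X₁, ⟨-, hX₁, hs₁, p₁, a₁, L₁, e₁, u₁, -, b₁, -, f₁⟩, i₁, hi₁⟩ :=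
    exists_large hS (max (max 1 (V / ζ)) (max c₀ (max (Real.log G) (V + 1) / ε)))
  replace hi₁ := hi₁.trans (u₁ i₁)
  have k1 : 1 ≤ L₁ := le_of_max_le_left (le_of_max_le_left hi₁)
  have k2 : V ≤ ζ * L₁ := by
    have := le_of_max_le_right (le_of_max_le_left hi₁)
    rwa [div_le_iff₀ hζ, mul_comm] at this
  have k3 : c₀ ≤ L₁ := le_of_max_le_left (le_of_max_le_right hi₁)
  have k4 : max (Real.log G) (V + 1) ≤ ε * L₁ := by
    have := le_of_max_le_right (le_of_max_le_right hi₁)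
    rwa [div_le_iff₀ hε, mul_comm] at this
  obtain ⟨X₂, ⟨-, hX₂, hs₂, p₂, a₂, L₂, e₂, u₂, m₂, b₂, g₂, f₂⟩, i₂, hi₂⟩ :=
    exists_large hS ((16 / ζ + 2 * n₀) * L₁)
  replace hi₂ := hi₂.trans (u₂ i₂)
  have hn : (1 : ℝ) ≤ n₀ := by exact_mod_cast hn₀
  have hη4 : 0 < 16 / ζ := by positivity
  have l2 : 16 * L₁ ≤ ζ * L₂ := by
    have : 16 / ζ * L₁ ≤ L₂ := le_trans (by gcongr; linarith) hi₂
    calc 16 * L₁ = ζ * (16 / ζ * L₁) := by field_simp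
      _ ≤ _ := by gcongr
  have l3 : 2 * n₀ * L₁ ≤ L₂ := le_trans (by gcongr; linarith) hi₂
  have l1 : L₁ ≤ L₂ := le_trans (le_mul_of_one_le_left (by linarith) (by linarith)) l3
  have k5 := k4.trans (mul_le_mul_of_nonneg_left l1 hε.le)
  have hx0 : ∀ i, 0 < x i ^ p₁ i := fun i => Nat.pos_of_mul_pos_left (e₁ i ▸ hX₁ i)
  have ha₁ : ∀ i, 0 < a₁ i := fun i => Nat.pos_of_mul_pos_right (e₁ i ▸ hX₁ i)
  have ha₂ : ∀ i, 0 < a₂ i := fun i => Nat.pos_of_mul_pos_right (e₂ i ▸ hX₂ i)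
  have hx1 : ∀ i, 0 < x i := fun i => Nat.pos_of_ne_zero fun h => by
    have := hx0 i
    rw [h, zero_pow (f₁ i).1.ne'] at this
    exact lt_irrefl _ this
  have key := fun i => quot_bounds (ν := ζ / 8) (f := f i) (c := 2 * N) (p₂ := p₂ i)
    (by positivity) (by linarith)
    (by
      have h1 : (N : ℝ) ≤ f i := by exact_mod_cast hf i
      calc (1 : ℝ) = ζ / 8 * (8 / ζ) := by field_simp
        _ ≤ _ := by gcongr; exact hN.trans h1)
    (by positivity) (by linarith : 0 < L₁) (by linarith : 2 * L₁ ≤ ζ / 8 * L₂) (f₁ i).1 (f₁ i).2.1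
    (f₁ i).2.2 (f₂ i).2.1 (f₂ i).2.2
  have hζL : 0 < ζ * L₁ := by positivity
  have hζL' : ζ * L₁ ≤ 1 / 10 * L₁ := by gcongr
  have hq0 : ∀ i, (0 : ℝ) < (p₂ i / p₁ i : ℕ) := fun i =>
    (mul_pos_iff_of_pos_left (by positivity : 0 < (1 + 4 * (ζ / 8)) * L₁)).mp
      (by linarith [(key i).2])
  have lo : ∀ i, (1 - ζ / 8) * L₁ ≤ L₂ / (p₂ i / p₁ i : ℕ) := fun i =>
    (le_div_iff₀ (hq0 i)).mpr (key i).1
  have hi : ∀ i, L₂ / (p₂ i / p₁ i : ℕ) ≤ (1 + 4 * (ζ / 8)) * L₁ := fun i =>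
    (div_le_iff₀ (hq0 i)).mpr (key i).2
  have hΛ : 3 * ((1 - ζ / 8) * L₁) ≤ ∑ j, L₂ / (p₂ j / p₁ j : ℕ) := by
    rw [Fin.sum_univ_three]
    linarith [lo 0, lo 1, lo 2]
  have hΛ' : (1 + 2 * ζ) * L₁ ≤ (1 / 3 + ζ) * ∑ j, L₂ / (p₂ j / p₁ j : ℕ) := by
    refine le_trans ?_ (mul_le_mul_of_nonneg_left hΛ (by linarith))
    have : ζ * (ζ * L₁) ≤ 1 / 10 * (ζ * L₁) := by gcongr
    linarith
  refine absurd (H A (fun i => A i * a₁ i) X₂ (fun i => a₂ i * x i ^ (p₂ i % p₁ i))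
    (fun i => x i ^ p₁ i) (fun i => p₂ i / p₁ i) G L₂ hA hX₂ hs₂ (fun i => ?_) (fun i => ?_) u₂ m₂
    (fun i => ?_) (fun i => by linarith [le_of_max_le_right k5, hAV i]) (le_of_max_le_left k5)
    (fun i j hij => ?_) (fun i => by linarith [hi i]) (fun h => ?_) ?_ (fun i _ => ?_)).2
    (not_lt.mpr (by linarith))
  · rw [mul_assoc, ← pow_mul, ← pow_add, Nat.mod_add_div]
    exact e₂ i
  · have h1 : (n₀ : ℝ) * (2 * L₁) ≤ (p₂ i / p₁ i : ℕ) * (2 * L₁) := by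
      have := mul_le_mul_of_nonneg_right (by linarith : (1 + 4 * (ζ / 8)) * L₁ ≤ 2 * L₁) (hq0 i).le
      linarith [(key i).2]
    exact_mod_cast le_of_mul_le_mul_right h1 (by linarith)
  · have h1 : x i ^ (p₂ i % p₁ i) ≤ X₁ i := by
      rw [e₁ i]
      exact (Nat.pow_le_pow_right (hx1 i) (Nat.mod_lt _ (f₁ i).1).le).trans
        (Nat.le_mul_of_pos_left _ (ha₁ i))
    have h2 : (0 : ℝ) < (x i ^ (p₂ i % p₁ i) : ℕ) := by exact_mod_cast pow_pos (hx1 i) _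
    have h3 := Real.log_le_log h2 (Nat.cast_le.mpr h1)
    rw [Nat.cast_mul, Real.log_mul (by exact_mod_cast (ha₂ i).ne') h2.ne']
    linarith [u₁ i, b₂ i]
  · refine le_trans (Nat.le_of_dvd (Nat.gcd_pos_of_pos_left _ (pow_pos (hx1 i) _)) ?_) (g₂ i j hij)
    rw [← pow_mul, ← pow_mul]
    exact Nat.dvd_gcd ((Nat.gcd_dvd_left _ _).trans (pow_dvd_pow _ (Nat.mul_div_le _ _)))
      ((Nat.gcd_dvd_right _ _).trans (pow_dvd_pow _ (Nat.mul_div_le _ _)))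
  · exact mul_ne_zero (hA 0) (by exact_mod_cast (ha₁ 0).ne') (congrFun h 0)
  · rw [← hs₁]
    refine sum_congr rfl fun i _ => ?_
    rw [e₁ i]
    push_cast
    ring
  · have h5 : (0 : ℝ) < a₁ i := by exact_mod_cast ha₁ i
    have h6 : (0 : ℝ) < (x i ^ p₁ i : ℕ) := by exact_mod_cast hx0 i
    have h7 : Real.log (X₁ i) = Real.log (a₁ i) + Real.log (x i ^ p₁ i : ℕ) := by
      rw [← Real.log_mul h5.ne' h6.ne', ← Nat.cast_mul, ← e₁ i]
    have h8 : (1 - (η + 2 * ζ)) * (L₂ / (p₂ i / p₁ i : ℕ)) ≤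
        (1 - η) * ((1 + 4 * (ζ / 8)) * L₁) :=
      mul_le_mul (by linarith) (hi i) (div_nonneg (by linarith) (hq0 i).le) (by linarith)
    have h9 : 0 ≤ η * (ζ * L₁) := by positivity
    rw [Int.cast_mul, abs_mul, Int.cast_natCast, abs_of_pos h5,
      Real.log_mul (abs_pos.mpr (by exact_mod_cast hA i)).ne' h5.ne']
    exact ⟨by linarith [u₁ i, hAV i], by linarith [b₁ i, hAV i]⟩

theorem lines_finite {η θ : ℝ} (hη0 : 0 ≤ η) (hη1 : η < 1) (hθ : 2 * θ < (1 - η) ^ 2) :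
    ∃ n₀ : ℕ, 2 ≤ n₀ ∧ ∀ (A : Fin 3 → ℤ) (G : ℕ), (∀ i, A i ≠ 0) →
    {X : Fin 3 → ℕ | (∀ i, 0 < X i) ∧ ∑ i, A i * X i = 0 ∧
      ∃ (p a x : Fin 3 → ℕ) (α : Fin 3 → ℤ) (L : ℝ),
      (∀ i, X i = a i * x i ^ p i) ∧ (∀ i, n₀ ≤ p i) ∧ (∀ i, Real.log (X i) ≤ L) ∧
      (∃ i, L = Real.log (X i)) ∧ (∀ i, Real.log (a i) ≤ η * L) ∧
      (∀ i j, i ≠ j → Nat.gcd (x i ^ p i) (x j ^ p j) ≤ G) ∧
      (∀ i, 2 * (L / p i) ≤ ∑ j, L / p j) ∧ α ≠ 0 ∧ ∑ i, α i * x i = 0 ∧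
      ∀ i, α i ≠ 0 → Real.log |(α i : ℝ)| + L / p i ≤ θ * ∑ j, L / p j}.Finite := by
  have hθ' : 2 * max θ 0 < (1 - η) ^ 2 := by
    rcases max_choice θ 0 with h | h <;> rw [h]
    · exact hθ
    · rw [mul_zero]; exact pow_pos (by linarith) 2
  obtain ⟨n₀, ε, c₀, hε, hn₀, H⟩ := core hη0 hη1 (le_max_right θ 0) hθ'
  obtain ⟨N, hN, H'⟩ := fixed_finite hη0 hη1
  have hN0 : (0 : ℝ) < N := by exact_mod_cast hN
  refine ⟨max n₀ 2, le_max_right _ _, fun A G hA => ?_⟩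
  set V := ∑ i, Real.log |(A i : ℝ)| with hV
  have hAV : ∀ i, Real.log |(A i : ℝ)| ≤ V := fun i =>
    single_le_sum (f := fun i => Real.log |(A i : ℝ)|) (fun i _ => log_abs_nonneg (hA i))
      (mem_univ i)
  set Λ₀ := max 1 c₀ with hΛ₀
  set L₀ := max 1 (max (Real.log G) (V + 1) / ε) with hL₀
  have hfin := ((Set.Finite.pi' fun _ : Fin 3 => Set.finite_le_nat ⌈Real.exp Λ₀⌉₊).prod
    (Set.Finite.pi' fun _ : Fin 3 => Set.finite_Icc N ⌊2 * N * Λ₀⌋₊)).biUnion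
    fun w hw => H' A G w.1 w.2 hA fun i => (hw.2 i).1
  refine (hfin.union (Set.Finite.pi' fun _ : Fin 3 => Set.finite_le_nat ⌈Real.exp L₀⌉₊)).subset ?_
  rintro X ⟨hX, hs, p, a, x, α, L, e, hp, hu, hm, ha, hG, htri, hα, ht, hb⟩
  rcases le_total L L₀ with hL | hL
  · refine Or.inr fun i => ?_
    have h1 := (Real.log_le_iff_le_exp (by exact_mod_cast hX i)).mp ((hu i).trans hL)
    exact_mod_cast h1.trans (Nat.le_ceil _)
  have hL1 : 1 ≤ L := le_of_max_le_left hL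
  have hL2 : max (Real.log G) (V + 1) ≤ ε * L := by
    have := le_of_max_le_right hL
    rwa [div_le_iff₀ hε, mul_comm] at this
  have hp0 : ∀ i, 0 < p i := fun i => lt_of_lt_of_le (by norm_num) (le_of_max_le_right (hp i))
  have hpr : ∀ i, (0 : ℝ) < p i := fun i => by exact_mod_cast hp0 i
  have hpos : ∀ i, 0 < L / p i := fun i => div_pos (by linarith) (hpr i)
  have hΛ0 : 0 < ∑ j, L / p j := sum_pos (fun j _ => hpos j) univ_nonempty
  have ha0 : ∀ i, 0 < a i := fun i => Nat.pos_of_mul_pos_right (e i ▸ hX i)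
  have hx0 : ∀ i, 0 < x i := fun i => Nat.pos_of_ne_zero fun h => by
    have := Nat.pos_of_mul_pos_left (e i ▸ hX i)
    rw [h, zero_pow (hp0 i).ne'] at this
    exact lt_irrefl _ this
  have hxr : ∀ i, (0 : ℝ) < x i := fun i => by exact_mod_cast hx0 i
  have hlx : ∀ i, Real.log (x i) ≤ L / p i := fun i => by
    rw [le_div_iff₀ (hpr i), mul_comm, ← Real.log_pow]
    refine (Real.log_le_log (pow_pos (hxr i) _) ?_).trans (hu i)
    rw [e i]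
    exact_mod_cast Nat.le_mul_of_pos_left _ (ha0 i)
  have hθΛ := mul_le_mul_of_nonneg_right (le_max_left θ 0) hΛ0.le
  obtain ⟨hα', hΛ⟩ := H A α X a x p G L hA hX hs e (fun i => le_of_max_le_left (hp i)) hu hm ha
    (fun i => by linarith [le_of_max_le_right hL2, hAV i]) (le_of_max_le_left hL2) hG htri hα ht
    (fun i hi => ⟨by linarith [hb i hi, hlx i],
      by linarith [hb i hi, mul_nonneg hη0 (hpos i).le]⟩)
  have h23 : 2 / 3 < (1 - η) ^ 2 := by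
    have h1 : ∀ i, L / p i ≤ θ * ∑ j, L / p j := fun i => by
      linarith [hb i (hα' i), log_abs_nonneg (hα' i)]
    have h2 : 1 / 3 * ∑ j, L / p j ≤ θ * ∑ j, L / p j := by
      linarith [h1 0, h1 1, h1 2, Fin.sum_univ_three fun j => L / p j]
    linarith [le_of_mul_le_mul_right h2 hΛ0]
  have hle : ∀ i, L / p i ≤ Λ₀ := fun i =>
    (single_le_sum (f := fun j => L / p j) (fun j _ => (hpos j).le) (mem_univ i)).trans
      (le_max_of_le_right hΛ.le)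
  obtain ⟨p', hp', hp1⟩ : ∃ p' : Fin 3 → ℕ, (∀ i, x i ^ p' i = x i ^ p i) ∧
      ∀ i, 0 < p' i ∧ 1 / 2 ≤ L / p' i ∧ L / p' i ≤ Λ₀ := by
    refine ⟨fun i => if x i = 1 then ⌈L⌉₊ else p i, fun i => ?_, fun i => ?_⟩
    · beta_reduce
      split_ifs with h
      · rw [h, one_pow, one_pow]
      · rfl
    · beta_reduce
      split_ifs with h
      · have h1 : 0 < ⌈L⌉₊ := Nat.ceil_pos.mpr (by linarith)
        have h2 : (0 : ℝ) < ⌈L⌉₊ := by exact_mod_cast h1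
        refine ⟨h1, ?_, le_trans ?_ (le_max_left _ _)⟩
        · rw [le_div_iff₀ h2]
          linarith [Nat.ceil_lt_add_one (by linarith : 0 ≤ L)]
        · rw [div_le_one h2]
          exact Nat.le_ceil _
      · refine ⟨hp0 i, le_trans ?_ (hlx i), hle i⟩
        have h1 : (2 : ℝ) ≤ x i := by exact_mod_cast (by have := hx0 i; omega : 2 ≤ x i)
        linarith [Real.log_le_log (by norm_num) h1, Real.log_two_gt_d9]
  refine Or.inl (Set.mem_biUnion (x := (x, fun i => ⌊2 * N * (L / p' i)⌋₊))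
    ⟨fun i => ?_, fun i => ⟨?_, ?_⟩⟩ ⟨h23, hX, hs, p', a, L, fun i => ?_, hu, hm, ha,
      fun i j hij => ?_, fun i => ?_⟩)
  · have h1 := (Real.log_le_iff_le_exp (hxr i)).mp ((hlx i).trans (hle i))
    exact_mod_cast h1.trans (Nat.le_ceil _)
  · exact Nat.le_floor (by linarith [mul_le_mul_of_nonneg_left (hp1 i).2.1 hN0.le])
  · exact Nat.floor_le_floor (mul_le_mul_of_nonneg_left (hp1 i).2.2 (by positivity))
  · rw [hp' i]; exact e i
  · rw [hp' i, hp' j]; exact hG i j hij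
  · have h1 : (0 : ℝ) < p' i := by exact_mod_cast (hp1 i).1
    have h2 := Nat.floor_le (show 0 ≤ 2 * N * (L / p' i) by positivity)
    have h3 := (Nat.lt_floor_add_one (2 * N * (L / p' i))).le
    refine ⟨(hp1 i).1, ?_, ?_⟩
    · rwa [← le_div_iff₀ h1, mul_div_assoc]
    · rwa [← div_le_iff₀ h1, mul_div_assoc]

theorem gcd_pow_bound {B g q x y p r : ℕ} (hB : 0 < B) (hg : 0 < g) (hp : 2 ≤ p) (hr : 2 ≤ r)
    (hq : g ≤ q * ∏ l ∈ g.primeFactors, l) (h : Nat.gcd (x ^ p) (y ^ r) ∣ B * g) :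
    Nat.gcd (x ^ p) (y ^ r) ≤ (B * q) ^ 2 := by
  obtain ⟨s, hs⟩ := Nat.prod_primeFactors_dvd g
  set ρ := ∏ l ∈ g.primeFactors, l with hρ
  have hρ0 : 0 < ρ := prod_pos fun l hl => (Nat.prime_of_mem_primeFactors hl).pos
  have hs0 : 0 < s := Nat.pos_of_mul_pos_left (hs ▸ hg)
  have hsq : s ≤ q := Nat.le_of_mul_le_mul_left (by rw [← hs, mul_comm]; exact hq) hρ0
  have hBs : B * s ≠ 0 := (Nat.mul_pos hB hs0).ne'
  set d := Nat.gcd (x ^ p) (y ^ r) with hd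
  have hd0 : d ≠ 0 := (Nat.pos_of_dvd_of_pos h (Nat.mul_pos hB hg)).ne'
  refine le_trans (Nat.le_of_dvd (pow_pos (Nat.mul_pos hB hs0) 2) ?_) (by gcongr)
  rw [← Nat.factorization_prime_le_iff_dvd hd0 (pow_ne_zero 2 hBs)]
  intro l hl
  have h1 : d.factorization l ≤ (B * s).factorization l + ρ.factorization l := by
    have h2 : d ∣ B * s * ρ := by rw [mul_assoc, mul_comm s, ← hs]; exact h
    have h3 := (Nat.factorization_prime_le_iff_dvd hd0 (mul_ne_zero hBs hρ0.ne')).mpr h2 l hl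
    rwa [Nat.factorization_mul hBs hρ0.ne', Finsupp.add_apply] at h3
  have h2 : ρ.factorization l ≤ 1 := by
    rw [hρ, Nat.factorization_prod_apply fun m hm => (Nat.prime_of_mem_primeFactors hm).ne_zero]
    calc _ = ∑ m ∈ g.primeFactors, if m = l then 1 else 0 := sum_congr rfl fun m hm => by
          rw [(Nat.prime_of_mem_primeFactors hm).factorization, Finsupp.single_apply]
      _ ≤ 1 := by rw [sum_ite_eq']; split_ifs <;> omega
  rw [Nat.factorization_pow, Finsupp.smul_apply, smul_eq_mul]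
  rcases Nat.eq_zero_or_pos (d.factorization l) with h3 | h3
  · omega
  · have h4 : l ∣ d := Nat.dvd_of_factorization_pos h3.ne'
    have h5 : l ^ 2 ∣ d := Nat.dvd_gcd
      ((pow_dvd_pow_of_dvd (hl.dvd_of_dvd_pow (h4.trans (Nat.gcd_dvd_left _ _))) 2).trans
        (pow_dvd_pow _ hp))
      ((pow_dvd_pow_of_dvd (hl.dvd_of_dvd_pow (h4.trans (Nat.gcd_dvd_right _ _))) 2).trans
        (pow_dvd_pow _ hr))
    have h6 := (hl.pow_dvd_iff_le_factorization hd0).mp h5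
    omega

end Pool.Agent.Lib.MP_4ffbf9_nt.H
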